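import Mathlib
import Pool.Agent.W516.FourDefs

/-!
# Frobenius elements which are ordinary on an elliptic factor
-/

set_option autoImplicit false
set_option linter.unusedSectionVars false

namespace Pool.Agent.Q43.GC

open Polynomial Pool.Agent.W516.FT

noncomputable section

/-- The characteristic polynomial of a Frobenius element of an elliptic curve. -/
def ellPoly (t : ℤ) (q : ℕ) : Polynomial ℚ := X ^ 2 - C (t : ℚ) * X + C (q : ℚ)

section

variable {t : ℤ} {q : ℕ}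

theorem ellPoly_ne : ellPoly t q ≠ 0 := by
  intro h
  have h1 := congrArg (fun p : Polynomial ℚ => p.coeff 2) h
  rw [ellPoly, coeff_add, coeff_sub, coeff_X_pow, coeff_C_mul, coeff_X, coeff_C] at h1
  norm_num at h1

theorem mem_ell {a : ℂ} : a ∈ (ellPoly t q).rootSet ℂ ↔ a ^ 2 - t * a + q = 0 := by
  rw [mem_rootSet, and_iff_right ellPoly_ne]
  simp [ellPoly]

theorem conj_root {a : ℂ} (h : a ^ 2 - t * a + q = 0) :
    (starRingEnd ℂ a) ^ 2 - t * (starRingEnd ℂ a) + q = 0 := by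
  have h1 := congrArg (starRingEnd ℂ) h
  simpa using h1

theorem conj_ne (ht : t ^ 2 < 4 * q) {a : ℂ} (h : a ^ 2 - t * a + q = 0) : starRingEnd ℂ a ≠ a := by
  intro h1
  obtain ⟨r, rfl⟩ := Complex.conj_eq_iff_real.1 h1
  have h2 : r ^ 2 - t * r + q = 0 := by exact_mod_cast h
  have h3 : (t : ℝ) ^ 2 < 4 * q := by exact_mod_cast ht
  nlinarith [sq_nonneg (2 * r - t)]

theorem conj_add (ht : t ^ 2 < 4 * q) {a : ℂ} (h : a ^ 2 - t * a + q = 0) :
    a + starRingEnd ℂ a = t := by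
  have h1 := conj_root h
  have h2 : (a - starRingEnd ℂ a) * (a + starRingEnd ℂ a - t) = 0 := by
    linear_combination h - h1
  rcases mul_eq_zero.1 h2 with h3 | h3
  · exact absurd (sub_eq_zero.1 h3).symm (conj_ne ht h)
  · exact sub_eq_zero.1 h3

theorem conj_mul (ht : t ^ 2 < 4 * q) {a : ℂ} (h : a ^ 2 - t * a + q = 0) :
    a * starRingEnd ℂ a = q := by
  have h1 := conj_add ht h
  linear_combination a * h1 - h

theorem norm_root (ht : t ^ 2 < 4 * q) {a : ℂ} (h : a ^ 2 - t * a + q = 0) : ‖a‖ ^ 2 = q := by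
  have h1 := conj_mul ht h
  rw [Complex.mul_conj, Complex.normSq_eq_norm_sq] at h1
  exact_mod_cast h1

theorem other_root (ht : t ^ 2 < 4 * q) {a b : ℂ} (h : a ^ 2 - t * a + q = 0)
    (hb : b ^ 2 - t * b + q = 0) : b = a ∨ b = starRingEnd ℂ a := by
  have h1 := conj_add ht h
  have h2 : (b - a) * (b - starRingEnd ℂ a) = 0 := by
    linear_combination hb - h - (b - a) * h1
  rcases mul_eq_zero.1 h2 with h3 | h3
  · exact Or.inl (sub_eq_zero.1 h3)
  · exact Or.inr (sub_eq_zero.1 h3)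

theorem ell_separable (ht : t ^ 2 < 4 * q) : (ellPoly t q).Separable := by
  have h0 : (4 * q - t ^ 2 : ℚ) ≠ 0 := by
    have h1 : (t : ℚ) ^ 2 < 4 * q := by exact_mod_cast ht
    linarith
  refine ⟨C (4 / (4 * q - t ^ 2 : ℚ)), - C (1 / (4 * q - t ^ 2 : ℚ)) * (2 * X - C (t : ℚ)), ?_⟩
  have h2 : derivative (ellPoly t q) = 2 * X - C (t : ℚ) := by
    simp [ellPoly]
    norm_num
  rw [h2]
  have h3 : C (4 / (4 * q - t ^ 2 : ℚ)) = (4 * C (1 / (4 * q - t ^ 2 : ℚ)) : Polynomial ℚ) := by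
    rw [show (4 / (4 * q - t ^ 2 : ℚ)) = 4 * (1 / (4 * q - t ^ 2 : ℚ)) by ring, C_mul]
    rfl
  rw [h3, ellPoly]
  have h4 : (C (1 / (4 * q - t ^ 2 : ℚ)) * (4 * C (q : ℚ) - C (t : ℚ) ^ 2) : Polynomial ℚ) = 1 := by
    have h5 : (4 * C (q : ℚ) - C (t : ℚ) ^ 2 : Polynomial ℚ) = C (4 * q - t ^ 2 : ℚ) := by
      rw [C_sub, C_mul, C_pow]
      rfl
    rw [h5, ← C_mul, one_div, inv_mul_cancel₀ h0, C_1]
  linear_combination h4

/-- The ring of all algebraic integers. -/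
abbrev OO : Type := integralClosure ℤ ℂ

theorem ell_integral {a : ℂ} (h : a ^ 2 - t * a + q = 0) : IsIntegral ℤ a := by
  refine ⟨X ^ 2 - C t * X + C (q : ℤ), ?_, ?_⟩
  · monicity!
  · simp only [eval₂_add, eval₂_sub, eval₂_mul, eval₂_pow, eval₂_X, eval₂_C]
    simpa using h

/-- The algebraic integers with the value `a` and its conjugate are coprime. -/
theorem ell_coprime (hc : IsCoprime t (q : ℤ)) (ht : t ^ 2 < 4 * q) {a b : OO}
    (h : (a : ℂ) ^ 2 - t * a + q = 0) (hb : (b : ℂ) = starRingEnd ℂ a) : IsCoprime a b := by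
  obtain ⟨r, s, hrs⟩ := hc
  have h1 : (a : ℂ) + b = t := by
    rw [hb]
    exact conj_add ht h
  have h2 : (a : ℂ) * b = q := by
    rw [hb]
    exact conj_mul ht h
  have h3 : (r : ℂ) * t + s * q = 1 := by exact_mod_cast congrArg (Int.cast : ℤ → ℂ) hrs
  refine ⟨(r : OO) + s * b, (r : OO), ?_⟩
  apply Subtype.ext
  push_cast
  linear_combination h3 + r * h1 + s * h2

theorem q_not_unit (hq : 1 < q) : ¬ IsUnit ((q : ℕ) : OO) := by
  intro h
  obtain ⟨u, hu⟩ := h.exists_right_inv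
  have h1 : (q : ℂ) * u = 1 := by
    have h2 := congrArg (Subtype.val) hu
    push_cast at h2
    exact h2
  have h3 : IsIntegral ℤ ((q : ℚ)⁻¹) := by
    have h4 : IsIntegral ℤ (algebraMap ℚ ℂ ((q : ℚ)⁻¹)) := by
      have h5 : algebraMap ℚ ℂ ((q : ℚ)⁻¹) = u := by
        have h6 : (q : ℂ) ≠ 0 := by exact_mod_cast (by omega : q ≠ 0)
        have h7 : algebraMap ℚ ℂ ((q : ℚ)⁻¹) = (q : ℂ)⁻¹ := by simp
        rw [h7]
        exact inv_eq_of_mul_eq_one_right h1
      rw [h5]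
      exact u.2
    exact (isIntegral_algebraMap_iff (algebraMap ℚ ℂ).injective).1 h4
  obtain ⟨n, hn⟩ := IsIntegrallyClosed.isIntegral_iff.1 h3
  have h8 : (q : ℤ) * n = 1 := by
    have h9 : (q : ℚ) * n = 1 := by
      have h10 : (n : ℚ) = (q : ℚ)⁻¹ := hn
      rw [h10]
      exact mul_inv_cancel₀ (by exact_mod_cast (by omega : q ≠ 0))
    exact_mod_cast h9
  have h11 := Int.isUnit_iff.1 (IsUnit.of_mul_eq_one _ h8)
  rcases h11 with h11 | h11 <;> omega

theorem pow_ne (hq : 1 < q) (hc : IsCoprime t (q : ℤ)) (ht : t ^ 2 < 4 * q) {a : ℂ}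
    (h : a ^ 2 - t * a + q = 0) {M : ℕ} (hM : 0 < M) : a ^ M ≠ (starRingEnd ℂ a) ^ M := by
  intro h1
  let a' : OO := ⟨a, ell_integral h⟩
  let b' : OO := ⟨starRingEnd ℂ a, ell_integral (conj_root h)⟩
  have hab : IsCoprime a' b' := ell_coprime hc ht h rfl
  have h2 : a' ^ M = b' ^ M := Subtype.ext (by simpa using h1)
  have h3 : IsCoprime (a' ^ M) (b' ^ M) := hab.pow
  rw [h2, isCoprime_self] at h3
  have h4 : IsUnit b' := (isUnit_pow_iff hM.ne').1 h3
  rw [← h2] at h3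
  have h5 : IsUnit a' := (isUnit_pow_iff hM.ne').1 h3
  have h6 : a' * b' = ((q : ℕ) : OO) := Subtype.ext (by
    have := conj_mul ht h
    simpa using this)
  exact q_not_unit hq (h6 ▸ h5.mul h4)

theorem ell_four (hq : 1 < q) (hc : IsCoprime t (q : ℤ)) (ht : t ^ 2 < 4 * q) :
    OnlyTrivialRelationsOfLengthFour (ellPoly t q) q := by
  intro M hM a ha b hb c hc' d hd h
  rw [mem_ell] at ha hb hc' hd
  have hmul := conj_mul ht ha
  set y := starRingEnd ℂ a with hy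
  have hmul' : y * a = q := by rw [mul_comm, hmul]
  have hq0 : (q : ℂ) ≠ 0 := by exact_mod_cast (by omega : q ≠ 0)
  have ha0 : a ≠ 0 := by
    rintro rfl
    rw [zero_mul] at hmul
    exact hq0 hmul.symm
  have hy0 : y ≠ 0 := by
    intro h0
    rw [h0, mul_zero] at hmul
    exact hq0 hmul.symm
  have hpow : (q : ℂ) ^ (2 * M) = a ^ (2 * M) * y ^ (2 * M) := by rw [← mul_pow, hmul]
  have h1 : ∀ N : ℕ, 0 < N → a ^ N ≠ y ^ N := fun N hN => pow_ne hq hc ht ha hN
  have hA : (a * a * a * a) ^ M ≠ (q : ℂ) ^ (2 * M) := by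
    intro h2
    rw [hpow] at h2
    apply h1 (2 * M) (by omega)
    apply mul_left_cancel₀ (pow_ne_zero (2 * M) ha0)
    rw [← h2]
    ring
  have hB : (a * a * a * y) ^ M ≠ (q : ℂ) ^ (2 * M) := by
    intro h2
    rw [hpow] at h2
    apply h1 M hM
    apply mul_left_cancel₀ (mul_ne_zero (pow_ne_zero (2 * M) ha0) (pow_ne_zero M hy0))
    calc a ^ (2 * M) * y ^ M * a ^ M = (a * a * a * y) ^ M := by ring
      _ = _ := h2
      _ = _ := by ring
  have hC : (a * y * y * y) ^ M ≠ (q : ℂ) ^ (2 * M) := by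
    intro h2
    rw [hpow] at h2
    apply h1 M hM
    apply mul_left_cancel₀ (mul_ne_zero (pow_ne_zero M ha0) (pow_ne_zero (2 * M) hy0))
    calc a ^ M * y ^ (2 * M) * a ^ M = a ^ (2 * M) * y ^ (2 * M) := by ring
      _ = (a * y * y * y) ^ M := h2.symm
      _ = _ := by ring
  rcases other_root ht ha hb with rfl | hb' <;> rcases other_root ht ha hc' with rfl | hc'' <;>
    rcases other_root ht ha hd with rfl | hd'
  · exact absurd h hA
  · rw [hd', ← hy] at h ⊢
    exact absurd h hB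
  · rw [hc'', ← hy] at h ⊢
    exact absurd (by rw [← h]; ring) hB
  · rw [hc'', hd', ← hy]
    exact Or.inr (Or.inl ⟨hmul, hmul⟩)
  · rw [hb', ← hy] at h ⊢
    exact absurd (by rw [← h]; ring) hB
  · rw [hb', hd', ← hy]
    exact Or.inl ⟨hmul, hmul⟩
  · rw [hb', hc'', ← hy]
    exact Or.inl ⟨hmul, hmul'⟩
  · rw [hb', hc'', hd', ← hy] at h
    exact absurd h hC

theorem ell_sep (hq : 1 < q) (hc : IsCoprime t (q : ℤ)) (ht : t ^ 2 < 4 * q) {Q : Polynomial ℚ}
    (hQ0 : Q ≠ 0) (hQ : ∀ z ∈ Q.rootSet ℂ, IsIntegral ℤ z ∧ ‖z‖ ^ 2 = q)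
    (hne : ∀ M : ℕ, 0 < M → ∀ a : ℂ, a ^ 2 - t * a + q = 0 → ∀ z ∈ Q.rootSet ℂ, a ^ M ≠ z ^ M)
    (M : ℕ) (hM : 0 < M) (x : ℂ) (hx : x ∈ (ellPoly t q).rootSet ℂ) (z : ℂ)
    (hz : z ∈ (ellPoly t q).rootSet ℂ) (hxz : x ≠ z) (x' : ℂ) (hx' : x' ∈ Q.rootSet ℂ) (z' : ℂ)
    (hz' : z' ∈ Q.rootSet ℂ) : (z * x') ^ M ≠ (z' * x) ^ M := by
  intro h
  rw [mem_ell] at hx hz
  have hzx : z = starRingEnd ℂ x := (other_root ht hx hz).resolve_left hxz.symm
  let X₀ : OO := ⟨x, ell_integral hx⟩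
  let Z₀ : OO := ⟨z, ell_integral hz⟩
  let X₁ : OO := ⟨x', (hQ x' hx').1⟩
  let Z₁ : OO := ⟨z', (hQ z' hz').1⟩
  have h1 : IsCoprime (X₀ ^ M) (Z₀ ^ M) := (ell_coprime hc ht hx hzx).pow
  have h2 : Z₀ ^ M * X₁ ^ M = Z₁ ^ M * X₀ ^ M := Subtype.ext (by
    have := h
    rw [mul_pow, mul_pow] at this
    simpa using this)
  obtain ⟨u, hu⟩ := h1.dvd_of_dvd_mul_left (Dvd.intro_left _ h2.symm)
  have hu' : x' ^ M = x ^ M * (u : ℂ) := by
    have := congrArg Subtype.val hu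
    simpa using this
  have hq0 : (q : ℝ) ≠ 0 := by exact_mod_cast (by omega : q ≠ 0)
  have hx0 : x ≠ 0 := by
    rintro rfl
    have h3 := norm_root ht hx
    rw [norm_zero] at h3
    exact hq0 (by rw [← h3]; norm_num)
  -- the number field
  have hxi : IsIntegral ℚ x := (ell_integral hx).tower_top
  have hxi' : IsIntegral ℚ x' := (hQ x' hx').1.tower_top
  let K : IntermediateField ℚ ℂ := IntermediateField.adjoin ℚ {x, x'}
  have hfin : FiniteDimensional ℚ K := by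
    refine IntermediateField.finiteDimensional_adjoin ?_
    intro w hw
    rcases hw with rfl | hw
    · exact hxi
    · rw [Set.mem_singleton_iff.1 hw]
      exact hxi'
  have : NumberField K := { to_charZero := inferInstance, to_finiteDimensional := hfin }
  let xK : K := ⟨x, IntermediateField.subset_adjoin ℚ _ (Set.mem_insert _ _)⟩
  let xK' : K := ⟨x', IntermediateField.subset_adjoin ℚ _ (Set.mem_insert_of_mem _ rfl)⟩
  have hxK0 : xK ≠ 0 := by
    intro h3
    exact hx0 (congrArg Subtype.val h3)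
  have huK : ((xK' ^ M / xK ^ M : K) : ℂ) = (u : ℂ) := by
    push_cast
    rw [div_eq_iff (pow_ne_zero M hx0)]
    change x' ^ M = _
    rw [hu', mul_comm]
  have hint : IsIntegral ℤ (xK' ^ M / xK ^ M : K) := by
    have h3 : IsIntegral ℤ (algebraMap K ℂ (xK' ^ M / xK ^ M)) := by
      change IsIntegral ℤ ((xK' ^ M / xK ^ M : K) : ℂ)
      rw [huK]
      exact u.2
    exact (isIntegral_algebraMap_iff (algebraMap K ℂ).injective).1 h3
  obtain ⟨n, hn, hn1⟩ := NumberField.Embeddings.pow_eq_one_of_norm_eq_one K ℂ hint (by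
    intro φ
    have h3 : (φ xK) ^ 2 - t * φ xK + q = 0 := by
      have h4 : xK ^ 2 - (t : K) * xK + (q : K) = 0 := Subtype.ext (by
        push_cast
        exact hx)
      have h5 := congrArg φ h4
      simpa using h5
    have h6 : ‖φ xK‖ ^ 2 = q := norm_root ht h3
    have h7 : φ xK' ∈ Q.rootSet ℂ := by
      rw [mem_rootSet, and_iff_right hQ0] at hx' ⊢
      have h8 : aeval xK' Q = 0 := by
        apply (algebraMap K ℂ).injective
        rw [map_zero, ← aeval_algebraMap_apply]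
        exact hx'
      have h9 : aeval (φ xK') Q = φ (aeval xK' Q) := by
        have h10 : (φ.toRatAlgHom : K →ₐ[ℚ] ℂ) xK' = φ xK' := rfl
        rw [← h10, aeval_algHom_apply]
        rfl
      rw [h9, h8, map_zero]
    have h11 : ‖φ xK'‖ ^ 2 = q := (hQ _ h7).2
    have h12 : ‖φ xK'‖ = ‖φ xK‖ := by
      rw [← abs_norm (φ xK'), ← abs_norm (φ xK)]
      exact (sq_eq_sq_iff_abs_eq_abs _ _).1 (h11.trans h6.symm)
    rw [map_div₀, map_pow, map_pow, norm_div, norm_pow, norm_pow, h12]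
    exact div_self (pow_ne_zero M (by
      rw [norm_ne_zero_iff]
      exact (map_ne_zero φ).2 hxK0)))
  have h13 : (u : ℂ) ^ n = 1 := by
    rw [← huK]
    exact_mod_cast congrArg Subtype.val hn1
  refine hne (M * n) (Nat.mul_pos hM hn) x hx x' hx' ?_
  rw [pow_mul, pow_mul, hu', mul_pow, h13, mul_one]

end

end

end Pool.Agent.Q43.GC
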