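import Pool.Agent.Q43.GC.Power
import Pool.Agent.Q43.GC.Ell
import Pool.Agent.Q50.GS.Main

/-!
# Families of products in which one factor is constant
-/

set_option autoImplicit false
set_option linter.unusedSectionVars false

namespace Pool.Agent.Q43.GC

open Module Pool.Agent.Q50.GS Pool.Agent.W516.FT Pool.Agent.TH776.FM Pool.Agent.TH776.FL

section

variable {ℓ : ℕ} [hℓ : Fact ℓ.Prime] {H V W : Type} [AddCommGroup H] [Module ℚ_[ℓ] H]
  [AddCommGroup V] [Module ℚ_[ℓ] V] [AddCommGroup W] [Module ℚ_[ℓ] W]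
  {G D : Type} [Group G] [Group D]

/-- If the Tate forms at the point are invariant under the geometric monodromy group, the point has
the same algebraic monodromy group as the family. -/
theorem fam_main (ρ : Representation ℚ_[ℓ] G H) (χ : G →* ℚ_[ℓ]) (i : D →* G)
    (N : Subgroup G) [N.Normal] (hN : (i.range ⊔ N).FiniteIndex)
    (B : Representation ℚ_[ℓ] G V) (C : Representation ℚ_[ℓ] G W) (r : ℕ)
    (u : H ≃ₗ[ℚ_[ℓ]] ((Fin r → V) × W)) (hu : ∀ s h, u (ρ s h) = sumRep B C r s (u h))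
    (hχN : ∀ s ∈ N, χ s = 1)
    (hinv : ∀ (m : ℕ) (φ : MultilinearMap ℚ_[ℓ] (fun _ : Fin m × Fin 2 => (Fin r → V) × W) ℚ_[ℓ]),
      Pool.Agent.H204R3.SP.IsTate (sumRep (B.comp i) (C.comp i) r) (χ.comp i) m φ →
      ∀ s ∈ N, ∀ v, φ (fun l => sumRep B C r s (v l)) = φ v) : SameGroup ρ χ i := by
  intro m φ hφ
  obtain ⟨Δ₁, hΔ₁, h1⟩ := hφ
  set φ' : MultilinearMap ℚ_[ℓ] (fun _ : Fin m × Fin 2 => (Fin r → V) × W) ℚ_[ℓ] :=
    φ.compLinearMap (fun _ => u.symm.toLinearMap) with hφ'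
  have hv : ∀ v : Fin m × Fin 2 → H, φ v = φ' (fun l => u (v l)) := by
    intro v
    rw [hφ', MultilinearMap.compLinearMap_apply]
    congr 1
    funext l
    exact (u.symm_apply_apply (v l)).symm
  have h2 : Pool.Agent.H204R3.SP.IsTate (sumRep (B.comp i) (C.comp i) r) (χ.comp i) m φ' := by
    refine ⟨Δ₁, hΔ₁, fun s hs v => ?_⟩
    have h3 := h1 s hs (fun l => u.symm (v l))
    rw [hv, hv] at h3
    have h4 : (fun l => u ((ρ.comp i) s (u.symm (v l)))) =
        fun l => sumRep (B.comp i) (C.comp i) r s (v l) := by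
      funext l
      change u (ρ (i s) _) = _
      rw [hu, u.apply_symm_apply]
      rfl
    have h5 : (fun l => u (u.symm (v l))) = v := funext fun l => u.apply_symm_apply (v l)
    rw [h4, h5] at h3
    exact h3
  refine ⟨transf ρ χ φ, finiteIndex_of hN hΔ₁ (fun d hd v => h1 d hd v) (Δ₂ := ⊤) inferInstance
    (fun n _ v => ?_), fun s hs v => hs v⟩
  rw [hχN n n.2, one_pow, one_mul, hv, hv]
  have h6 : (fun l => u (ρ (n : G) (v l))) = fun l => sumRep B C r (n : G) (u (v l)) :=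
    funext fun l => hu _ _
  rw [h6]
  exact hinv m φ' h2 n n.2 _

end

end Pool.Agent.Q43.GC
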