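import Pool.Agent.Q43.GC.Mix
import Pool.Agent.W516.FourMain
import Pool.Agent.TH776.FL.Main

/-!
# Tate forms on a product: the theorem over the field of coefficients
-/

set_option autoImplicit false
set_option linter.unusedSectionVars false

namespace Pool.Agent.Q43.GC

open Module TensorProduct Polynomial Pool.Agent.H204R3.CM Pool.Agent.H204R3.SP
  Pool.Agent.H204R3.GP Pool.Agent.W516.FT Pool.Agent.TH776.FM Pool.Agent.TH776.FL

noncomputable section

section eig

variable {Ω : Type} [Field Ω] {W : Type} [AddCommGroup W] [Module Ω W]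

theorem aeval_eig (T : Module.End Ω W) {r : Ω} {w : W} (h : T w = r • w) (p : Polynomial Ω) :
    aeval T p w = p.eval r • w := by
  induction p using Polynomial.induction_on with
  | C c => simp [Module.algebraMap_end_apply]
  | add p q hp hq => rw [map_add, LinearMap.add_apply, hp, hq, eval_add, add_smul]
  | monomial n c ih =>
    have h1 : (C c * X ^ (n + 1) : Polynomial Ω) = X * (C c * X ^ n) := by ring
    rw [h1, map_mul, aeval_X, Module.End.mul_apply, ih, map_smul, h, smul_smul]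
    congr 1
    simp only [eval_mul, eval_X]
    ring

/-- A vector annihilated by a product of different linear factors is a sum of eigenvectors. -/
theorem mem_span_eig (T : Module.End Ω W) (S : Finset Ω) :
    ∀ v : W, aeval T (∏ r ∈ S, (X - C r)) v = 0 →
      v ∈ Submodule.span Ω {w : W | ∃ r ∈ S, T w = r • w} := by
  classical
  induction S using Finset.induction_on with
  | empty =>
    intro v hv
    rw [Finset.prod_empty, map_one, Module.End.one_apply] at hv
    rw [hv]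
    exact Submodule.zero_mem _
  | insert r₀ S hr ih =>
    intro v hv
    set p : Polynomial Ω := ∏ r ∈ S, (X - C r) with hp
    have hp0 : p.eval r₀ ≠ 0 := by
      rw [hp, eval_prod]
      refine Finset.prod_ne_zero_iff.2 fun r hrS => ?_
      rw [eval_sub, eval_X, eval_C, sub_ne_zero]
      rintro rfl
      exact hr hrS
    have h1 : T (aeval T p v) = r₀ • aeval T p v := by
      rw [Finset.prod_insert hr, map_mul, Module.End.mul_apply, map_sub, aeval_X, aeval_C,
        LinearMap.sub_apply, Module.algebraMap_end_apply, sub_eq_zero] at hv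
      exact hv
    have h2 : aeval T p (v - (p.eval r₀)⁻¹ • aeval T p v) = 0 := by
      rw [map_sub, map_smul, aeval_eig T h1, smul_smul, inv_mul_cancel₀ hp0, one_smul, sub_self]
    have h3 := ih _ h2
    have h4 : v = (v - (p.eval r₀)⁻¹ • aeval T p v) + (p.eval r₀)⁻¹ • aeval T p v := by abel
    rw [h4]
    refine Submodule.add_mem _ (Submodule.span_mono ?_ h3) (Submodule.smul_mem _ _
      (Submodule.subset_span ⟨r₀, Finset.mem_insert_self _ _, h1⟩))
    rintro w ⟨r, hrS, hw⟩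
    exact ⟨r, Finset.mem_insert_of_mem hrS, hw⟩

/-- A basis of eigenvectors of a semisimple endomorphism. -/
theorem exists_eigenbasis' [FiniteDimensional Ω W] (T : Module.End Ω W) (Q : Polynomial Ω)
    (hQ : Q.Separable) (hs : Q.Splits) (hT : aeval T Q = 0) :
    ∃ (n : ℕ) (f : Basis (Fin n) Ω W) (b : Fin n → Ω), (∀ i, T (f i) = b i • f i) ∧
      ∀ i, Q.IsRoot (b i) := by
  classical
  have hQ0 : Q ≠ 0 := hQ.ne_zero
  let S : Finset Ω := Q.roots.toFinset
  have hprod : C Q.leadingCoeff * ∏ r ∈ S, (X - C r) = Q := by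
    have h1 := hs.eq_prod_roots
    have h2 : (Q.roots.map (X - C ·)).prod = ∏ r ∈ S, (X - C r) := by
      unfold Finset.prod
      rw [Multiset.toFinset_val, (nodup_roots hQ).dedup]
    rw [← h2]
    exact h1.symm
  have h0 : ∀ v : W, aeval T (∏ r ∈ S, (X - C r)) v = 0 := by
    intro v
    have h1 : aeval T (C Q.leadingCoeff * ∏ r ∈ S, (X - C r)) v = 0 := by
      rw [hprod, hT, LinearMap.zero_apply]
    rw [map_mul, aeval_C, Module.End.mul_apply, Module.algebraMap_end_apply] at h1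
    exact (smul_eq_zero.1 h1).resolve_left (leadingCoeff_ne_zero.2 hQ0)
  have hspan : ⊤ ≤ Submodule.span Ω {w : W | ∃ r ∈ S, T w = r • w} := fun v _ =>
    mem_span_eig T S v (h0 v)
  let B := Basis.ofSpan hspan
  have hfin := FiniteDimensional.fintypeBasisIndex B
  let f := B.reindex (Fintype.equivFin _)
  have hf : ∀ i, ∃ r ∈ S, T (f i) = r • f i := by
    intro i
    have h1 := Basis.ofSpan_subset hspan ⟨(Fintype.equivFin _).symm i, rfl⟩
    have h2 : f i = B ((Fintype.equivFin _).symm i) := Basis.reindex_apply _ _ _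
    rw [h2]
    exact h1
  choose r hr hr' using hf
  refine ⟨_, f, r, hr', fun i => ?_⟩
  exact isRoot_of_mem_roots (Multiset.mem_toFinset.1 (hr i))

end eig

/-- The separation of the eigenvalues in another field. -/
theorem sep_transfer {P Q : ℚ[X]} (hP : P ≠ 0) (hQ : Q ≠ 0)
    (hsep : ∀ M : ℕ, 0 < M → ∀ x ∈ P.rootSet ℂ, ∀ z ∈ P.rootSet ℂ, x ≠ z → ∀ x' ∈ Q.rootSet ℂ,
      ∀ z' ∈ Q.rootSet ℂ, (z * x') ^ M ≠ (z' * x) ^ M)
    {Ω : Type*} [Field Ω] [CharZero Ω] (M : ℕ) (hM : 0 < M) {x z x' z' : Ω}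
    (hx : x ∈ P.rootSet Ω) (hz : z ∈ P.rootSet Ω) (hxz : x ≠ z) (hx' : x' ∈ Q.rootSet Ω)
    (hz' : z' ∈ Q.rootSet Ω) : (z * x') ^ M ≠ (z' * x) ^ M := by
  classical
  let E := IntermediateField.adjoin ℚ (P.rootSet Ω ∪ Q.rootSet Ω)
  have hE : Algebra.IsAlgebraic ℚ E := IntermediateField.isAlgebraic_adjoin (fun x hx => by
    rcases hx with hx | hx
    · rw [Polynomial.mem_rootSet] at hx
      exact (isAlgebraic_iff_isIntegral).1 ⟨P, hx.1, hx.2⟩
    · rw [Polynomial.mem_rootSet] at hx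
      exact (isAlgebraic_iff_isIntegral).1 ⟨Q, hx.1, hx.2⟩)
  let σ : E →ₐ[ℚ] ℂ := IsAlgClosed.lift
  have hσ : Function.Injective σ := σ.toRingHom.injective
  have hroot : ∀ (R : ℚ[X]) (_ : R ≠ 0) (y : E), (y : Ω) ∈ R.rootSet Ω → σ y ∈ R.rootSet ℂ := by
    intro R hR y hy
    rw [Polynomial.mem_rootSet]
    refine ⟨hR, ?_⟩
    rw [Polynomial.aeval_algHom_apply]
    have h1 : Polynomial.aeval y R = 0 := by
      apply (algebraMap E Ω).injective
      rw [map_zero, ← Polynomial.aeval_algebraMap_apply]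
      exact (Polynomial.mem_rootSet.1 hy).2
    rw [h1, map_zero]
  let X₁ : E := ⟨x, IntermediateField.subset_adjoin _ _ (Or.inl hx)⟩
  let X₂ : E := ⟨z, IntermediateField.subset_adjoin _ _ (Or.inl hz)⟩
  let Y₁ : E := ⟨x', IntermediateField.subset_adjoin _ _ (Or.inr hx')⟩
  let Y₂ : E := ⟨z', IntermediateField.subset_adjoin _ _ (Or.inr hz')⟩
  intro h
  have h1 : (X₂ * Y₁) ^ M = (Y₂ * X₁) ^ M := Subtype.coe_injective (by
    push_cast
    exact h)
  refine hsep M hM (σ X₁) (hroot P hP X₁ hx) (σ X₂) (hroot P hP X₂ hz) (fun h2 => ?_) (σ Y₁)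
    (hroot Q hQ Y₁ hx') (σ Y₂) (hroot Q hQ Y₂ hz') ?_
  · exact hxz (congrArg Subtype.val (hσ h2))
  · rw [← map_mul, ← map_mul, ← map_pow, ← map_pow, h1]

section endo

variable {k V Γ : Type} [Field k] [CharZero k] [AddCommGroup V] [Module k V]
  [FiniteDimensional k V] [Group Γ] {ρ : Representation k Γ V} {χ : Γ →* k}
  {ω : V →ₗ[k] V →ₗ[k] k}

/-- Tate forms in two variables are given by endomorphisms. -/
theorem exists_endo (h : IsTateModule ρ χ ω) (B : V →ₗ[k] V →ₗ[k] k) {Δ : Subgroup Γ}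
    (hB : ∀ s ∈ Δ, ∀ u v, B (ρ s u) (ρ s v) = χ s * B u v) :
    ∃ P : Module.End k V, (∀ u v, ω (P u) v = B u v) ∧ ∀ s ∈ Δ, ∀ v, P (ρ s v) = ρ s (P v) := by
  have hinj : Function.Injective ω := by
    rw [← LinearMap.ker_eq_bot, Submodule.eq_bot_iff]
    intro u hu
    apply h.nondeg
    intro v
    have h1 : ω u v = 0 := by rw [LinearMap.mem_ker.1 hu]; rfl
    have h2 := h.alt (u + v)
    simp only [map_add, LinearMap.add_apply, h.alt, zero_add, add_zero, h1] at h2
    exact h2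
  have hbij : Function.Bijective ω :=
    ⟨hinj, (LinearMap.injective_iff_surjective_of_finrank_eq_finrank
      (Subspace.dual_finrank_eq (K := k) (V := V)).symm).1 hinj⟩
  let e : V ≃ₗ[k] (V →ₗ[k] k) := LinearEquiv.ofBijective ω hbij
  let P : Module.End k V := e.symm.toLinearMap.comp B
  have hP : ∀ u v, ω (P u) v = B u v := by
    intro u v
    have h1 : ω (P u) = B u := e.apply_symm_apply (B u)
    rw [h1]
  refine ⟨P, hP, fun s hs v => ?_⟩
  apply hinj
  refine LinearMap.ext fun w => ?_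
  obtain ⟨w, rfl⟩ : ∃ w', ρ s w' = w := ⟨ρ s⁻¹ w, rho_inv' ρ s w⟩
  rw [hP, h.similitude, hP, hB s hs]

/-- The linear maps which commute with the almost equivariant endomorphisms and preserve the pairing
preserve all Tate forms in two variables. -/
theorem tate2_inv (h : IsTateModule ρ χ ω) {T : V →ₗ[k] V} (hT : ∀ u v, ω (T u) (T v) = ω u v)
    (hTP : ∀ P : Module.End k V, (∃ Δ : Subgroup Γ, Δ.FiniteIndex ∧ ∀ s ∈ Δ, ∀ v,
      P (ρ s v) = ρ s (P v)) → ∀ v, P (T v) = T (P v))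
    (B : V →ₗ[k] V →ₗ[k] k) (hB : IsTate2 ρ χ B) (u v : V) : B (T u) (T v) = B u v := by
  obtain ⟨Δ, hΔ, hB⟩ := hB
  obtain ⟨P, hP, hPΔ⟩ := exists_endo h B hB
  rw [← hP, ← hP, hTP P ⟨Δ, hΔ, hPΔ⟩, hT]

end endo

section main

variable {k : Type} [Field k] [CharZero k] {V W : Type} [AddCommGroup V] [Module k V]
  [FiniteDimensional k V] [AddCommGroup W] [Module k W] [FiniteDimensional k W]
  {Γ : Type} [Group Γ]

/-- The map between the sum of the base changes and the base change of the sum. -/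
def jmap (Ω : Type) [Field Ω] [Algebra k Ω] :
    ((Ω ⊗[k] V) × (Ω ⊗[k] W)) →ₗ[Ω] (Ω ⊗[k] (V × W)) :=
  ((LinearMap.inl k V W).baseChange Ω).coprod ((LinearMap.inr k V W).baseChange Ω)

theorem jmap_apply (Ω : Type) [Field Ω] [Algebra k Ω] (u : Ω ⊗[k] V) (w : Ω ⊗[k] W) :
    jmap (k := k) (V := V) (W := W) Ω (u, w) =
      (LinearMap.inl k V W).baseChange Ω u + (LinearMap.inr k V W).baseChange Ω w := rfl

theorem jmap_tmul (Ω : Type) [Field Ω] [Algebra k Ω] (v : V) (w : W) :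
    jmap (k := k) (V := V) (W := W) Ω ((1 : Ω) ⊗ₜ[k] v, (1 : Ω) ⊗ₜ[k] w) =
      (1 : Ω) ⊗ₜ[k] ((v, w) : V × W) := by
  rw [jmap_apply, LinearMap.baseChange_tmul, LinearMap.baseChange_tmul, ← TensorProduct.tmul_add]
  simp

theorem jmap_pr (Ω : Type) [Field Ω] [Algebra k Ω] (ρ : Representation k Γ V)
    (σ : Representation k Γ W) (s : Γ) (u : (Ω ⊗[k] V) × (Ω ⊗[k] W)) :
    jmap (k := k) (V := V) (W := W) Ω (pr (bcr ρ Ω) (bcr σ Ω) s u) =
      bcr (pr ρ σ) Ω s (jmap Ω u) := by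
  obtain ⟨u, w⟩ := u
  rw [pr_apply, jmap_apply, jmap_apply, map_add]
  congr 1
  · induction u with
    | zero => simp only [map_zero]
    | add a b ha hb => simp only [map_add, ha, hb]
    | tmul a v =>
      simp only [bcr_tmul, LinearMap.baseChange_tmul]
      congr 1
      rw [pr_apply]
      simp
  · induction w with
    | zero => simp only [map_zero]
    | add a b ha hb => simp only [map_add, ha, hb]
    | tmul a v =>
      simp only [bcr_tmul, LinearMap.baseChange_tmul]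
      congr 1
      rw [pr_apply]
      simp

/-- Tate forms on a sum are invariant under the linear maps of the first summand which commute
with the endomorphisms and preserve the pairing; with a splitting field. -/
theorem mixed_over (Ω : Type) [Field Ω] [Algebra k Ω] [CharZero Ω] [FiniteDimensional k Ω]
    (ρ : Representation k Γ V) (σ : Representation k Γ W) (χ : Γ →* k)
    (ω : V →ₗ[k] V →ₗ[k] k) (ω' : W →ₗ[k] W →ₗ[k] k) (h : IsTateModule ρ χ ω)
    (h' : IsTateModule σ χ ω') (hR : RosatiTrivial ρ ω)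
    (γ : Γ) {q : ℕ} (hχ : χ γ = q) {P Q : ℚ[X]} (hP : P.Separable)
    (hγ : (ρ γ).charpoly = P.map (algebraMap ℚ k)) (hQ : Q.Separable)
    (hγ' : aeval (σ γ) (Q.map (algebraMap ℚ k)) = 0) (h4 : OnlyTrivialRelationsOfLengthFour P q)
    (hsep : ∀ M : ℕ, 0 < M → ∀ x ∈ P.rootSet ℂ, ∀ z ∈ P.rootSet ℂ, x ≠ z → ∀ x' ∈ Q.rootSet ℂ,
      ∀ z' ∈ Q.rootSet ℂ, (z * x') ^ M ≠ (z' * x) ^ M)
    (hsplit : (P.map (algebraMap ℚ Ω)).Splits) (hsplit' : (Q.map (algebraMap ℚ Ω)).Splits)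
    {m : ℕ} (φ : MultilinearMap k (fun _ : Fin m × Fin 2 => V × W) k)
    (hφ : IsTate (pr ρ σ) χ m φ) (T : V →ₗ[k] V) (hT : ∀ u v, ω (T u) (T v) = ω u v)
    (hTP : ∀ P : Module.End k V, (∃ Δ : Subgroup Γ, Δ.FiniteIndex ∧ ∀ s ∈ Δ, ∀ v,
      P (ρ s v) = ρ s (P v)) → ∀ v, P (T v) = T (P v)) (v : Fin m × Fin 2 → V × W) :
    φ (fun l => (T (v l).1, (v l).2)) = φ v := by
  classical
  have hq0' : (χ γ) ≠ 0 := by
    intro h
    have h1 : χ γ * χ γ⁻¹ = 1 := by rw [← map_mul, mul_inv_cancel, map_one]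
    rw [h, zero_mul] at h1
    exact zero_ne_one h1
  have hP0 : P ≠ 0 := hP.ne_zero
  have hQ0 : Q ≠ 0 := hQ.ne_zero
  have hanti : ∀ u v, ω u v = -ω v u := by
    intro u v
    have h1 := h.alt (u + v)
    simp only [map_add, LinearMap.add_apply, h.alt, zero_add, add_zero] at h1
    exact eq_neg_of_add_eq_zero_left (by rw [← h1]; ring)
  have hanti' : ∀ u v, ω' u v = -ω' v u := by
    intro u v
    have h1 := h'.alt (u + v)
    simp only [map_add, LinearMap.add_apply, h'.alt, zero_add, add_zero] at h1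
    exact eq_neg_of_add_eq_zero_left (by rw [← h1]; ring)
  have hnd : ∀ u, (∀ v, ω u v = 0) → u = 0 := fun u hu => h.nondeg u fun v => by
    rw [hanti, hu, neg_zero]
  have hnd' : ∀ u, (∀ v, ω' u v = 0) → u = 0 := fun u hu => h'.nondeg u fun v => by
    rw [hanti', hu, neg_zero]
  let b := Module.finBasis k V
  let b' := Module.finBasis k W
  have hmap : ∀ R : ℚ[X], (R.map (algebraMap ℚ k)).map (algebraMap k Ω) =
      R.map (algebraMap ℚ Ω) := by
    intro R
    rw [Polynomial.map_map]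
    congr 1
    exact (RingHom.ext_rat _ _)
  have hTchar : (bcr ρ Ω γ).charpoly = P.map (algebraMap ℚ Ω) := by
    change ((ρ γ).baseChange Ω).charpoly = _
    rw [LinearMap.charpoly_baseChange, hγ, hmap]
  have hcard : Fintype.card (P.rootSet Ω) = finrank Ω (Ω ⊗[k] V) := by
    rw [Polynomial.card_rootSet_eq_natDegree hP hsplit, ← LinearMap.charpoly_natDegree (bcr ρ Ω γ),
      hTchar, Polynomial.natDegree_map]
  obtain ⟨e, he⟩ := exists_eigenbasis (bcr ρ Ω γ) (P.rootSet Ω) (fun x hx => by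
    rw [hTchar, Polynomial.IsRoot.def, Polynomial.eval_map_algebraMap]
    exact (Polynomial.mem_rootSet.1 hx).2) hcard
  have hTQ : aeval (bcr σ Ω γ) (Q.map (algebraMap ℚ Ω)) = 0 := by
    rw [← hmap, Polynomial.aeval_map_algebraMap]
    have h1 : bcr σ Ω γ = Module.End.baseChangeHom k Ω W (σ γ) := rfl
    rw [h1, Polynomial.aeval_algHom_apply, hγ', map_zero]
  obtain ⟨n, f, c, hf, hc⟩ := exists_eigenbasis' (bcr σ Ω γ) (Q.map (algebraMap ℚ Ω))
    (hQ.map) hsplit' hTQ
  have hcQ : ∀ i, c i ∈ Q.rootSet Ω := fun i => Polynomial.mem_rootSet.2 ⟨hQ0, by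
    have h1 := hc i
    rwa [Polynomial.IsRoot.def, Polynomial.eval_map_algebraMap] at h1⟩
  have hq : bcc χ Ω γ = (q : Ω) := by
    rw [bcc_apply, hχ, map_natCast]
  have hq0 : (q : Ω) ≠ 0 := by
    rw [← hq, bcc_apply]
    exact fun h => hq0' ((algebraMap k Ω).injective (by rw [h, map_zero]))
  have hantiΩ : ∀ u v, bcb Ω ω u v = -bcb Ω ω v u := by
    have h1 : bcb Ω ω = -(bcb Ω ω).flip := by
      refine (b.baseChange Ω).ext fun i => (b.baseChange Ω).ext fun l => ?_
      rw [LinearMap.neg_apply, LinearMap.neg_apply, LinearMap.flip_apply, Basis.baseChange_apply,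
        Basis.baseChange_apply, bcb_one, bcb_one, hanti, map_neg]
    intro u v
    exact congrArg (fun F : (Ω ⊗[k] V) →ₗ[Ω] (Ω ⊗[k] V) →ₗ[Ω] Ω => F u v) h1
  have hantiΩ' : ∀ u v, bcb Ω ω' u v = -bcb Ω ω' v u := by
    have h1 : bcb Ω ω' = -(bcb Ω ω').flip := by
      refine (b'.baseChange Ω).ext fun i => (b'.baseChange Ω).ext fun l => ?_
      rw [LinearMap.neg_apply, LinearMap.neg_apply, LinearMap.flip_apply, Basis.baseChange_apply,
        Basis.baseChange_apply, bcb_one, bcb_one, hanti', map_neg]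
    intro u v
    exact congrArg (fun F : (Ω ⊗[k] W) →ₗ[Ω] (Ω ⊗[k] W) →ₗ[Ω] Ω => F u v) h1
  -- the involution
  have hprod : ∀ x y : P.rootSet Ω, bcb Ω ω (e x) (e y) ≠ 0 → (x : Ω) * y = q := by
    intro x y h0
    have h1 := bcb_inv ρ χ (Ω := Ω) ω h.similitude γ (e x) (e y)
    rw [he, he, map_smul, map_smul, LinearMap.smul_apply, smul_eq_mul, smul_eq_mul, hq,
      ← mul_assoc] at h1
    have h2 := mul_right_cancel₀ h0 h1
    rw [← h2, mul_comm]
  have hndΩ : ∀ u, (∀ w, bcb Ω ω u w = 0) → u = 0 := fun u hu =>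
    bcb_nondeg b ω h.nondeg hnd u fun v => by rw [hantiΩ, hu, neg_zero]
  have hndΩ' : ∀ u, (∀ w, bcb Ω ω' u w = 0) → u = 0 := fun u hu =>
    bcb_nondeg b' ω' h'.nondeg hnd' u fun v => by rw [hantiΩ', hu, neg_zero]
  have hex : ∀ x : P.rootSet Ω, ∃ y, bcb Ω ω (e x) (e y) ≠ 0 := by
    intro x
    by_contra hcon
    push Not at hcon
    apply e.ne_zero x
    apply hndΩ
    intro v
    rw [← e.sum_repr v, map_sum]
    refine Finset.sum_eq_zero fun y _ => ?_
    rw [map_smul, hcon, smul_zero]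
  choose inv hinv0 using hex
  have hxinv : ∀ x : P.rootSet Ω, (x : Ω) * inv x = q := fun x => hprod x _ (hinv0 x)
  have hx0 : ∀ x : P.rootSet Ω, (x : Ω) ≠ 0 := by
    intro x h
    apply hq0
    rw [← hxinv x, h, zero_mul]
  have huniq : ∀ x y : P.rootSet Ω, (x : Ω) * y = q → y = inv x := by
    intro x y h
    apply Subtype.coe_injective
    apply mul_left_cancel₀ (hx0 x)
    rw [h, hxinv]
  have hinv : ∀ x, inv (inv x) = x := fun x =>
    (huniq (inv x) x (by rw [mul_comm, hxinv])).symm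
  have hne : ∀ x, inv x ≠ x := by
    intro x h
    have h1 := hantiΩ (e x) (e x)
    have h2 : bcb Ω ω (e x) (e x) = 0 := by
      have h3 : (2 : Ω) * bcb Ω ω (e x) (e x) = 0 := by linear_combination h1
      exact (mul_eq_zero.1 h3).resolve_left two_ne_zero
    apply hinv0 x
    rw [h, h2]
  let jj : P.rootSet Ω → Ω := fun x => bcb Ω ω (e x) (e (inv x))
  have hjj : ∀ x, jj (inv x) = -jj x := by
    intro x
    simp only [jj, hinv]
    exact hantiΩ _ _
  have hj0 : ∀ x, jj x ≠ 0 := hinv0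
  have hω : ∀ x y, bcb Ω ω (e x) (e y) = JJ inv jj x y := by
    intro x y
    unfold JJ
    by_cases hy : y = inv x
    · rw [if_pos hy, hy]
    · rw [if_neg hy]
      by_contra h0
      exact hy (huniq x y (hprod x y h0))
  have hfour : Four inv (fun x : P.rootSet Ω => (x : Ω)) (q : Ω) := by
    intro M hM x y z w h
    rcases relations_transfer hP0 h4 M hM (x : Ω) y z w x.2 y.2 z.2 w.2 h with h | h | h
    · exact Or.inl ⟨huniq _ _ h.1, huniq _ _ h.2⟩
    · exact Or.inr (Or.inl ⟨huniq _ _ h.1, huniq _ _ h.2⟩)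
    · exact Or.inr (Or.inr ⟨huniq _ _ h.1, huniq _ _ h.2⟩)
  have hq' : ∀ y, ∃ y', c y * c y' = (q : Ω) := by
    intro y
    by_contra hcon
    push Not at hcon
    apply f.ne_zero y
    apply hndΩ'
    intro v
    rw [← f.sum_repr v, map_sum]
    refine Finset.sum_eq_zero fun y' _ => ?_
    rw [map_smul]
    by_contra h0
    have h0' : bcb Ω ω' (f y) (f y') ≠ 0 := fun h1 => h0 (by rw [h1, smul_zero])
    have h1 := bcb_inv σ χ (Ω := Ω) ω' h'.similitude γ (f y) (f y')
    rw [hf, hf, map_smul, map_smul, LinearMap.smul_apply, smul_eq_mul, smul_eq_mul, hq,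
      ← mul_assoc] at h1
    have h2 := mul_right_cancel₀ h0' h1
    exact hcon y' (by rw [← h2, mul_comm])
  have hsemi : ∀ Δ : Subgroup Γ, Δ.FiniteIndex → SemiUnder (ρ '' (Δ : Set Γ)) := by
    intro Δ hΔ U hU
    obtain ⟨U', h1, h2⟩ := h.semisimple Δ hΔ U (fun s hs u hu => hU _ ⟨s, hs, rfl⟩ u hu)
    refine ⟨U', ?_, h2⟩
    rintro _ ⟨s, hs, rfl⟩ u hu
    exact h1 s hs u hu
  have hproj : HasProj (bcr ρ Ω) := by
    intro Δ hΔ U hU
    obtain ⟨P', hP1, hP2, hP3⟩ := exists_proj_baseChange (Ω := Ω) (ρ '' (Δ : Set Γ)) (hsemi Δ hΔ) U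
      (by
        rintro _ ⟨s, hs, rfl⟩ u hu
        exact hU s hs u hu)
    exact ⟨P', hP1, hP2, fun s hs v => hP3 _ ⟨s, hs, rfl⟩ v⟩
  let w := Module.finBasis k Ω
  -- invariance of the forms in two variables
  have hT2 : ∀ B, IsTate2 (bcr ρ Ω) (bcc χ Ω) B → ∀ u v,
      B (T.baseChange Ω u) (T.baseChange Ω v) = B u v := by
    intro B hB
    have h1 : ∀ u v : V, B ((1 : Ω) ⊗ₜ[k] T u) ((1 : Ω) ⊗ₜ[k] T v) =
        B ((1 : Ω) ⊗ₜ[k] u) ((1 : Ω) ⊗ₜ[k] v) := by
      intro u v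
      apply w.repr.injective
      ext i
      have h2 := tate2_inv h hT hTP (comp2 w B i) (comp2_tate ρ χ w hB i) u v
      exact h2
    have h2 : B.compl₁₂ (T.baseChange Ω) (T.baseChange Ω) = B := by
      refine (b.baseChange Ω).ext fun i => (b.baseChange Ω).ext fun l => ?_
      rw [LinearMap.compl₁₂_apply, Basis.baseChange_apply, Basis.baseChange_apply,
        LinearMap.baseChange_tmul, LinearMap.baseChange_tmul]
      exact h1 _ _
    intro u v
    exact congrArg (fun F : (Ω ⊗[k] V) →ₗ[Ω] (Ω ⊗[k] V) →ₗ[Ω] Ω => F u v) h2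
  -- the Rosati involution
  have hros : ∀ c : P.rootSet Ω → Ω, AlmostEquivariant (bcr ρ Ω) (dg e c) →
      (∀ y, c (inv y) = -c y) → ∀ y, c y = 0 := by
    intro c hcΔ hcinv
    obtain ⟨Δ, hΔ, hcomm⟩ := hcΔ
    let B : (Ω ⊗[k] V) →ₗ[Ω] (Ω ⊗[k] V) →ₗ[Ω] Ω := (bcb Ω ω).comp (dg e c)
    have hBsymm : ∀ u v, B u v = B v u := by
      have h1 : B = B.flip := by
        refine e.ext fun x => e.ext fun y => ?_
        rw [LinearMap.flip_apply]
        change bcb Ω ω (dg e c (e x)) (e y) = bcb Ω ω (dg e c (e y)) (e x)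
        rw [dg_basis, dg_basis, map_smul, map_smul, LinearMap.smul_apply, LinearMap.smul_apply,
          hω, hω, smul_eq_mul, smul_eq_mul]
        unfold JJ
        by_cases hy : y = inv x
        · subst hy
          rw [if_pos rfl, if_pos (hinv x).symm, hcinv, hjj]
          ring
        · rw [if_neg hy, if_neg, mul_zero, mul_zero]
          intro h2
          apply hy
          rw [h2, hinv]
      intro u v
      exact congrArg (fun F : (Ω ⊗[k] V) →ₗ[Ω] (Ω ⊗[k] V) →ₗ[Ω] Ω => F u v) h1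
    have hBtate : IsTate2 (bcr ρ Ω) (bcc χ Ω) B := by
      refine ⟨Δ, hΔ, fun s hs u v => ?_⟩
      change bcb Ω ω (dg e c (bcr ρ Ω s u)) (bcr ρ Ω s v) = _
      rw [hcomm s hs, bcb_inv ρ χ ω h.similitude]
      rfl
    have hzero : ∀ u v : V, B ((1 : Ω) ⊗ₜ[k] u) ((1 : Ω) ⊗ₜ[k] v) = 0 := by
      intro u v
      apply w.repr.injective
      ext i
      rw [map_zero, Finsupp.zero_apply]
      obtain ⟨Δ', hΔ', hB'⟩ := comp2_tate ρ χ w hBtate i
      obtain ⟨P', hP', hPΔ'⟩ := exists_endo h (comp2 w B i) hB'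
      have hself := hR P' ⟨Δ', hΔ', hPΔ'⟩
      have h1 : comp2 w B i u v = - comp2 w B i v u := by
        rw [← hP' u v, hself, ← hP' v u, hanti u (P' v)]
      have h2 : comp2 w B i v u = comp2 w B i u v := by
        rw [comp2_apply, comp2_apply, hBsymm]
      rw [h2] at h1
      have h3 : (2 : k) * comp2 w B i u v = 0 := by linear_combination h1
      exact (mul_eq_zero.1 h3).resolve_left two_ne_zero
    have hB0 : B = 0 := by
      refine (b.baseChange Ω).ext fun i => (b.baseChange Ω).ext fun l => ?_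
      rw [Basis.baseChange_apply, Basis.baseChange_apply, hzero, LinearMap.zero_apply,
        LinearMap.zero_apply]
    intro y
    have h1 : bcb Ω ω (dg e c (e y)) (e (inv y)) = 0 := by
      change B (e y) (e (inv y)) = 0
      rw [hB0, LinearMap.zero_apply, LinearMap.zero_apply]
    rw [dg_basis, map_smul, LinearMap.smul_apply, smul_eq_mul] at h1
    exact (mul_eq_zero.1 h1).resolve_right (hj0 y)
  -- the form over `Ω`
  let bU := Module.finBasis k (V × W)
  let Φ : MultilinearMap Ω (fun _ : Fin m × Fin 2 => (Ω ⊗[k] V) × (Ω ⊗[k] W)) Ω :=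
    (bcm (Ω := Ω) bU φ).compLinearMap (fun _ => jmap Ω)
  have hΦ : IsTate (pr (bcr ρ Ω) (bcr σ Ω)) (bcc χ Ω) m Φ := by
    obtain ⟨Δ, hΔ, hφΔ⟩ := bcm_tate (Ω := Ω) bU (pr ρ σ) χ φ hφ
    refine ⟨Δ, hΔ, fun s hs u => ?_⟩
    change bcm (Ω := Ω) bU φ (fun l => jmap Ω (pr (bcr ρ Ω) (bcr σ Ω) s (u l))) = _
    simp only [jmap_pr]
    exact hφΔ s hs (fun l => jmap Ω (u l))
  have key := mixed_inv (bcr ρ Ω) (bcr σ Ω) (bcc χ Ω) (bcb Ω ω) (bcb Ω ω')
    (bcb_inv ρ χ ω h.similitude) (bcb_inv σ χ ω' h'.similitude) e f hinv hne hjj hj0 hω hproj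
    he hf hq0 hxinv hq' hq hfour (fun M hM x z hxz x' z' => sep_transfer hP0 hQ0 hsep M hM x.2 z.2
      (fun h => hxz (Subtype.coe_injective h)) (hcQ x') (hcQ z')) hndΩ hndΩ' hros Φ hΦ
    (T.baseChange Ω) hT2 (fun l => ((1 : Ω) ⊗ₜ[k] (v l).1, (1 : Ω) ⊗ₜ[k] (v l).2))
  have h1 : ∀ z : Fin m × Fin 2 → V × W,
      Φ (fun l => ((1 : Ω) ⊗ₜ[k] (z l).1, (1 : Ω) ⊗ₜ[k] (z l).2)) = algebraMap k Ω (φ z) := by
    intro z
    change bcm (Ω := Ω) bU φ (fun l => jmap Ω ((1 : Ω) ⊗ₜ[k] (z l).1, (1 : Ω) ⊗ₜ[k] (z l).2)) = _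
    simp only [jmap_tmul]
    exact bcm_one bU φ z
  rw [h1] at key
  apply (algebraMap k Ω).injective
  rw [← key, ← h1]
  rfl

/-- **Tate forms on a sum are invariant under the linear maps of the first summand which commute
with the endomorphisms and preserve the pairing.** -/
theorem mixed_main (ρ : Representation k Γ V) (σ : Representation k Γ W) (χ : Γ →* k)
    (ω : V →ₗ[k] V →ₗ[k] k) (ω' : W →ₗ[k] W →ₗ[k] k) (h : IsTateModule ρ χ ω)
    (h' : IsTateModule σ χ ω') (hR : RosatiTrivial ρ ω)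
    (γ : Γ) {q : ℕ} (hχ : χ γ = q) {P Q : ℚ[X]} (hP : P.Separable)
    (hγ : (ρ γ).charpoly = P.map (algebraMap ℚ k)) (hQ : Q.Separable)
    (hγ' : aeval (σ γ) (Q.map (algebraMap ℚ k)) = 0) (h4 : OnlyTrivialRelationsOfLengthFour P q)
    (hsep : ∀ M : ℕ, 0 < M → ∀ x ∈ P.rootSet ℂ, ∀ z ∈ P.rootSet ℂ, x ≠ z → ∀ x' ∈ Q.rootSet ℂ,
      ∀ z' ∈ Q.rootSet ℂ, (z * x') ^ M ≠ (z' * x) ^ M)
    {m : ℕ} (φ : MultilinearMap k (fun _ : Fin m × Fin 2 => V × W) k)
    (hφ : IsTate (pr ρ σ) χ m φ) (T : V →ₗ[k] V) (hT : ∀ u v, ω (T u) (T v) = ω u v)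
    (hTP : ∀ P : Module.End k V, (∃ Δ : Subgroup Γ, Δ.FiniteIndex ∧ ∀ s ∈ Δ, ∀ v,
      P (ρ s v) = ρ s (P v)) → ∀ v, P (T v) = T (P v)) (v : Fin m × Fin 2 → V × W) :
    φ (fun l => (T (v l).1, (v l).2)) = φ v := by
  have hP0 : P ≠ 0 := hP.ne_zero
  have hQ0 : Q ≠ 0 := hQ.ne_zero
  have _ : CharZero ((P * Q).map (algebraMap ℚ k)).SplittingField :=
    charZero_of_injective_algebraMap
      (algebraMap k ((P * Q).map (algebraMap ℚ k)).SplittingField).injective
  have hsplitPQ : ((P * Q).map (algebraMap ℚ ((P * Q).map (algebraMap ℚ k)).SplittingField)).Splits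
      := by
    have h1 := Polynomial.SplittingField.splits ((P * Q).map (algebraMap ℚ k))
    rw [Polynomial.map_map] at h1
    have h2 : (algebraMap k ((P * Q).map (algebraMap ℚ k)).SplittingField).comp (algebraMap ℚ k) =
        algebraMap ℚ _ := RingHom.ext_rat _ _
    rwa [h2] at h1
  have hPQ0 : (P * Q).map (algebraMap ℚ ((P * Q).map (algebraMap ℚ k)).SplittingField) ≠ 0 :=
    Polynomial.map_ne_zero (mul_ne_zero hP0 hQ0)
  have hmul : (P * Q).map (algebraMap ℚ ((P * Q).map (algebraMap ℚ k)).SplittingField) =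
      P.map (algebraMap ℚ _) * Q.map (algebraMap ℚ _) := Polynomial.map_mul _
  exact mixed_over ((P * Q).map (algebraMap ℚ k)).SplittingField ρ σ χ ω ω' h h' hR γ hχ hP hγ hQ
    hγ' h4 hsep (hsplitPQ.of_dvd hPQ0 ⟨_, hmul⟩)
    (hsplitPQ.of_dvd hPQ0 ⟨P.map (algebraMap ℚ _), hmul.trans (mul_comm _ _)⟩) φ hφ T hT hTP v

end main

end

end Pool.Agent.Q43.GC
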