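import Pool.Agent.Q43.GC.Pair

/-!
# Tate forms on a sum of two representations are invariant under the automorphisms of the first one
-/

set_option autoImplicit false
set_option linter.unusedSectionVars false

namespace Pool.Agent.Q43.GC

open Module Pool.Agent.H204R3.CM Pool.Agent.H204R3.SP Pool.Agent.H204R3.GP Pool.Agent.W516.FT

noncomputable section

variable {Ω : Type} [Field Ω] [CharZero Ω] {V W : Type} [AddCommGroup V] [Module Ω V]
  [AddCommGroup W] [Module Ω W] {Γ : Type} [Group Γ]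

variable (ρ : Representation Ω Γ V) (σ : Representation Ω Γ W) (χ : Γ →* Ω)
  (ω : V →ₗ[Ω] V →ₗ[Ω] Ω) (ω' : W →ₗ[Ω] W →ₗ[Ω] Ω)
  (hωρ : ∀ s u v, ω (ρ s u) (ρ s v) = χ s * ω u v)
  (hωσ : ∀ s u v, ω' (σ s u) (σ s v) = χ s * ω' u v)
  {R R' : Type} [Fintype R] [DecidableEq R] [Fintype R'] [DecidableEq R']
  (e : Basis R Ω V) (f : Basis R' Ω W) {inv : R → R} {jj : R → Ω}
  (hinv : ∀ x, inv (inv x) = x) (hne : ∀ x, inv x ≠ x)
  (hjj : ∀ x, jj (inv x) = -jj x) (hj0 : ∀ x, jj x ≠ 0)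
  (hω : ∀ x y, ω (e x) (e y) = JJ inv jj x y)
  (hss : HasProj ρ)
  {γ : Γ} {a : R → Ω} {b : R' → Ω} (hγ : ∀ x, ρ γ (e x) = a x • e x)
  (hγ' : ∀ x, σ γ (f x) = b x • f x)
  {q : Ω} (hq0 : q ≠ 0) (hq : ∀ x, a x * a (inv x) = q) (hq' : ∀ y, ∃ y', b y * b y' = q)
  (hχ : χ γ = q) (h4 : Four inv a q)
  (hsep : ∀ M : ℕ, 0 < M → ∀ x z : R, x ≠ z → ∀ x' z' : R', (a z * b x') ^ M ≠ (b z' * a x) ^ M)
  (hnd : ∀ u, (∀ w, ω u w = 0) → u = 0) (hnd' : ∀ u, (∀ w, ω' u w = 0) → u = 0)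
  (hros : ∀ c : R → Ω, AlmostEquivariant ρ (dg e c) → (∀ y, c (inv y) = -c y) → ∀ y, c y = 0)

include hinv hne hjj hj0 hω hωρ hωσ hss hγ hγ' hq0 hq hq' h4 hsep hnd hnd' in
theorem gCC_symm {x z : R} (hz : z ∈ CC e (gg ρ σ χ ω ω') ω inv x) :
    x ∈ CC e (gg ρ σ χ ω ω') ω inv z :=
  CC_symm e (gg ρ σ χ ω ω') (gg_bracket ρ σ χ ω ω')
    (DD_gg ρ σ χ ω ω' hωρ hωσ e f hinv hne hjj hω hγ hγ' hq0 hq hq' h4 hsep hnd hnd') hinv hne
    hjj hj0 ω hω (gg_sp ρ σ χ ω ω') ρ (gg_conj ρ σ χ ω ω' hωρ hωσ) hss (gg_comm ρ σ χ ω ω') hz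

include f hinv hne hjj hj0 hω hωρ hωσ hγ hγ' hq0 hq hq' h4 hsep hnd hnd' in
theorem gCC_trans {x z w : R} (hz : z ∈ CC e (gg ρ σ χ ω ω') ω inv x)
    (hw : w ∈ CC e (gg ρ σ χ ω ω') ω inv z) : w ∈ CC e (gg ρ σ χ ω ω') ω inv x :=
  CC_trans e (gg ρ σ χ ω ω') (gg_bracket ρ σ χ ω ω')
    (DD_gg ρ σ χ ω ω' hωρ hωσ e f hinv hne hjj hω hγ hγ' hq0 hq hq' h4 hsep hnd hnd') hinv hne
    hjj hj0 ω hω (gg_sp ρ σ χ ω ω') hz hw

include f hinv hne hjj hj0 hω hωρ hωσ hγ hγ' hq0 hq hq' h4 hsep hnd hnd' in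
/-- Diagonal endomorphisms that are constant on the classes are almost equivariant. -/
theorem g_almost (c : R → Ω) (hc : ∀ y, ∀ z ∈ CC e (gg ρ σ χ ω ω') ω inv y, c z = c y) :
    AlmostEquivariant ρ (dg e c) := by
  have hD := DD_gg ρ σ χ ω ω' hωρ hωσ e f hinv hne hjj hω hγ hγ' hq0 hq hq' h4 hsep hnd hnd'
  choose Δx hΔx hΔx' using fun x : R => exists_stabilizer e (gg ρ σ χ ω ω') hD hne ρ
    (gg_conj ρ σ χ ω ω' hωρ hωσ) (Submodule.span Ω (e '' CC e (gg ρ σ χ ω ω') ω inv x))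
    (UU_stable e (gg ρ σ χ ω ω') (gg_bracket ρ σ χ ω ω') hD hinv hne hjj hj0 ω hω
      (gg_sp ρ σ χ ω ω') x)
  have h0 : ∀ (y : R), ∀ v ∈ Submodule.span Ω (e '' CC e (gg ρ σ χ ω ω') ω inv y),
      dg e c v = c y • v := by
    intro y v hv
    induction hv using Submodule.span_induction with
    | mem v hv =>
      obtain ⟨z, hz, rfl⟩ := hv
      rw [dg_basis, hc y z hz]
    | zero => rw [map_zero, smul_zero]
    | add a b _ _ ha hb => rw [map_add, ha, hb, smul_add]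
    | smul c' a _ ha => rw [map_smul, ha, smul_comm]
  refine ⟨⨅ x, Δx x, Subgroup.finiteIndex_iInf hΔx, fun s hs v => ?_⟩
  have h2 : (dg e c).comp (ρ s) = (ρ s).comp (dg e c) := by
    refine e.ext fun y => ?_
    rw [LinearMap.comp_apply, LinearMap.comp_apply, h0 y (ρ s (e y)) (hΔx' y s
      ((Subgroup.mem_iInf.1 hs) y) _ (Submodule.subset_span ⟨y, Or.inl rfl, rfl⟩)), dg_basis,
      map_smul]
  exact congrArg (fun T : Module.End Ω V => T v) h2

include hinv hne hjj hj0 hω hωρ hωσ hss hγ hγ' hq0 hq hq' h4 hsep hnd hnd' hros in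
/-- If the Rosati involution is trivial, all classes are stable under the involution. -/
theorem inv_mem_CC (y₀ : R) : inv y₀ ∈ CC e (gg ρ σ χ ω ω') ω inv y₀ := by
  classical
  by_contra hb
  have symm : ∀ {x z : R}, z ∈ CC e (gg ρ σ χ ω ω') ω inv x → x ∈ CC e (gg ρ σ χ ω ω') ω inv z :=
    fun h => gCC_symm ρ σ χ ω ω' hωρ hωσ e f hinv hne hjj hj0 hω hss hγ hγ' hq0 hq hq' h4 hsep
      hnd hnd' h
  have trans : ∀ {x z w : R}, z ∈ CC e (gg ρ σ χ ω ω') ω inv x →
      w ∈ CC e (gg ρ σ χ ω ω') ω inv z → w ∈ CC e (gg ρ σ χ ω ω') ω inv x :=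
    fun h h' => gCC_trans ρ σ χ ω ω' hωρ hωσ e f hinv hne hjj hj0 hω hγ hγ' hq0 hq hq' h4
      hsep hnd hnd' h h'
  have hexcl : ∀ z, z ∈ CC e (gg ρ σ χ ω ω') ω inv y₀ →
      inv z ∉ CC e (gg ρ σ χ ω ω') ω inv y₀ := by
    intro z hz hz'
    exact hb (trans hz' (CC_inv e (gg ρ σ χ ω ω') ω hinv hz))
  have hcc : ∀ y, ∀ z ∈ CC e (gg ρ σ χ ω ω') ω inv y,
      (z ∈ CC e (gg ρ σ χ ω ω') ω inv y₀ ↔ y ∈ CC e (gg ρ σ χ ω ω') ω inv y₀) := by
    intro y z hz
    exact ⟨fun h => trans h (symm hz), fun h => trans h hz⟩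
  let c : R → Ω := fun z => if z ∈ CC e (gg ρ σ χ ω ω') ω inv y₀ then 1 else
    if inv z ∈ CC e (gg ρ σ χ ω ω') ω inv y₀ then -1 else 0
  have hcinv : ∀ z, c (inv z) = -c z := by
    intro z
    simp only [c, hinv]
    by_cases h1 : z ∈ CC e (gg ρ σ χ ω ω') ω inv y₀
    · rw [if_neg (hexcl z h1), if_pos h1, if_pos h1]
    · rw [if_neg h1, if_neg h1]
      by_cases h2 : inv z ∈ CC e (gg ρ σ χ ω ω') ω inv y₀
      · rw [if_pos h2, if_pos h2, neg_neg]
      · rw [if_neg h2, if_neg h2, neg_zero]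
  have hc : ∀ y, ∀ z ∈ CC e (gg ρ σ χ ω ω') ω inv y, c z = c y := by
    intro y z hz
    have h2 : inv z ∈ CC e (gg ρ σ χ ω ω') ω inv y₀ ↔ inv y ∈ CC e (gg ρ σ χ ω ω') ω inv y₀ :=
      (hcc (inv z) (inv y) (CC_inv e (gg ρ σ χ ω ω') ω hinv hz)).symm
    simp only [c, hcc y z hz, h2]
  have h1 := hros c (g_almost ρ σ χ ω ω' hωρ hωσ e f hinv hne hjj hj0 hω hγ hγ' hq0 hq hq' h4
    hsep hnd hnd' c hc) hcinv y₀
  have h2 : c y₀ = 1 := if_pos (mem_CC_self e (gg ρ σ χ ω ω') ω y₀)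
  rw [h2] at h1
  exact one_ne_zero h1

include hinv hne hjj hj0 hω hωρ hωσ hss hγ hγ' hq0 hq hq' hχ h4 hsep hnd hnd' hros in
/-- The diagonal elements kill all Tate forms. -/
theorem DD_pair (y : R) : (ext0 (DD e inv y) : Module.End Ω (V × W)) ∈ lieT (pr ρ σ) χ := by
  have hb := inv_mem_CC ρ σ χ ω ω' hωρ hωσ e f hinv hne hjj hj0 hω hss hγ hγ' hq0 hq hq' h4 hsep
    hnd hnd' hros
  have h1 : (ext0 (SS ω (e (inv y)) (e (inv y))) : Module.End Ω (V × W)) ∈ lieT (pr ρ σ) χ :=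
    SS_pair ρ σ χ ω ω' e f hinv hne hjj hj0 hω hγ hγ' hq0 hq hχ h4 (by rw [hinv]; exact hne y)
      ((hb y).resolve_left (hne y))
  have h2 : (ext0 (SS ω (e y) (e y)) : Module.End Ω (V × W)) ∈ lieT (pr ρ σ) χ := by
    have h3 := (hb (inv y)).resolve_left (by rw [hinv]; exact (hne y).symm)
    rw [hinv] at h3
    exact SS_pair ρ σ χ ω ω' e f hinv hne hjj hj0 hω hγ hγ' hq0 hq hχ h4 (hne y).symm h3
  have h3 := lieT_bracket (pr ρ σ) χ h2 h1
  rw [← ext0_mul, ← ext0_mul, ← map_sub, SS_bracket ω (om_anti e hinv hjj ω hω)] at h3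
  have h4 : ω (e y) (e (inv y)) = jj y := by
    rw [hω]
    unfold JJ
    rw [if_pos rfl]
  rw [h4, SS_comm ω (e (inv y)) (e y), SS_DD e hinv hne hjj ω hω] at h3
  have h5 : jj y • (-jj y) • DD e inv y + jj y • (-jj y) • DD e inv y +
      jj y • (-jj y) • DD e inv y + jj y • (-jj y) • DD e inv y =
      (-4 * (jj y * jj y)) • DD e inv y := by
    module
  rw [h5, map_smul] at h3
  exact (Submodule.smul_mem_iff _ (mul_ne_zero (by norm_num) (mul_ne_zero (hj0 y) (hj0 y)))).1 h3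

include hinv hne hjj hj0 hω hωρ hωσ hss hγ hγ' hq0 hq hq' hχ h4 hsep hnd hnd' hros in
/-- The symplectic Lie algebras of the classes kill all Tate forms. -/
theorem SS_all {x y : R} (h : y ∈ CC e (gg ρ σ χ ω ω') ω inv (inv x)) :
    (ext0 (SS ω (e x) (e y)) : Module.End Ω (V × W)) ∈ lieT (pr ρ σ) χ := by
  by_cases hxy : y = inv x
  · subst hxy
    rw [SS_DD e hinv hne hjj ω hω, map_smul]
    exact Submodule.smul_mem _ _ (DD_pair ρ σ χ ω ω' hωρ hωσ e f hinv hne hjj hj0 hω hss hγ hγ'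
      hq0 hq hq' hχ h4 hsep hnd hnd' hros x)
  · have h1 := h.resolve_left hxy
    rw [hinv] at h1
    exact SS_pair ρ σ χ ω ω' e f hinv hne hjj hj0 hω hγ hγ' hq0 hq hχ h4 hxy h1

/-- A set on which a function is constant on the orbits of an involution without fixed points has
even sum. -/
theorem even_card_of_balanced {κ R : Type} [Fintype κ] [Fintype R] [DecidableEq R] {inv : R → R}
    (hinv : ∀ x, inv (inv x) = x) (hne : ∀ x, inv x ≠ x) (I : κ → R)
    (h : ∀ y, (Finset.univ.filter (fun k => I k = y)).card =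
      (Finset.univ.filter (fun k => I k = inv y)).card) : Even (Fintype.card κ) := by
  have h1 : Fintype.card κ = ∑ y, (Finset.univ.filter (fun k => I k = y)).card := by
    rw [← Finset.card_univ]
    exact Finset.card_eq_sum_card_fiberwise (fun k _ => Finset.mem_univ (I k))
  have h2 : ((Fintype.card κ : ℕ) : ZMod 2) = 0 := by
    rw [h1, Nat.cast_sum]
    refine Finset.sum_involution (fun y _ => inv y) ?_ ?_ (fun y _ => Finset.mem_univ _)
      (fun y _ => hinv y)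
    · intro y _
      rw [← h y, ← two_mul]
      have h3 : (2 : ZMod 2) = 0 := rfl
      rw [h3, zero_mul]
    · intro y _ _
      exact hne y
  exact even_iff_two_dvd.2 ((ZMod.natCast_eq_zero_iff _ _).1 h2)

include hinv hne hjj hj0 hω hωρ hωσ hss hγ hγ' hq0 hq hq' h4 hsep hnd hnd' in
/-- Forms on the first summand that are killed by the Lie algebra are invariant. -/
theorem inv_form {κ : Type} [Fintype κ] [DecidableEq κ] (ψ : MultilinearMap Ω (fun _ : κ => V) Ω)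
    (hψ : ∀ x y, y ∈ CC e (gg ρ σ χ ω ω') ω inv (inv x) → Kills (SS ω (e x) (e y)) ψ)
    (T : V →ₗ[Ω] V) (hT : ∀ B, IsTate2 ρ χ B → ∀ u v, B (T u) (T v) = B u v) (v : κ → V) :
    ψ (fun k => T (v k)) = ψ v := by
  classical
  have hD := DD_gg ρ σ χ ω ω' hωρ hωσ e f hinv hne hjj hω hγ hγ' hq0 hq hq' h4 hsep hnd hnd'
  by_cases h0 : ψ = 0
  · rw [h0]
    rfl
  obtain ⟨I, hI⟩ : ∃ I : κ → R, ψ (fun k => e (I k)) ≠ 0 := by
    by_contra hcon
    push Not at hcon
    exact h0 (Basis.ext_multilinear (fun _ => e) hcon)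
  have heven : Even (Fintype.card κ) := by
    refine even_card_of_balanced hinv hne I fun y => ?_
    have h1 := hψ y (inv y) (Or.inl rfl)
    have h2 : SS ω (e y) (e (inv y)) = dg e (fun z => (-jj y) * dd inv y z) := by
      rw [SS_DD e hinv hne hjj ω hω]
      refine e.ext fun z => ?_
      rw [LinearMap.smul_apply, DD_basis, dg_basis, smul_smul]
    rw [h2, kills_dg] at h1
    have h3 := h1 I hI
    rw [← Finset.mul_sum] at h3
    have h4 := (mul_eq_zero.1 h3).resolve_left (neg_ne_zero.2 (hj0 y))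
    unfold dd at h4
    rw [Finset.sum_sub_distrib, Finset.sum_boole, Finset.sum_boole] at h4
    exact_mod_cast sub_eq_zero.1 h4
  obtain ⟨m, hm⟩ := heven
  let ε : Fin m × Fin 2 ≃ κ := Fintype.equivOfCardEq (by
    rw [Fintype.card_prod, Fintype.card_fin, Fintype.card_fin, hm]
    ring)
  let ψ' : MultilinearMap Ω (fun _ : Fin m × Fin 2 => V) Ω := ψ.domDomCongr ε.symm
  have hψ'a : ∀ w, ψ' w = ψ (fun k => w (ε.symm k)) := fun w => rfl
  have hψ' : ψ' ∈ Submodule.span Ω (PT ρ χ m) := by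
    refine tateN_mem e hinv hne hjj hj0 ω hω ρ χ (gg ρ σ χ ω ω') (gg_bracket ρ σ χ ω ω') hD
      (gg_sp ρ σ χ ω ω') (gg_conj ρ σ χ ω ω' hωρ hωσ) (gg_comm ρ σ χ ω ω') hωρ hss ψ' ?_
    intro x y hxy w
    have h1 := hψ x y hxy (fun k => w (ε.symm k))
    rw [← h1, ← Equiv.sum_comp ε]
    refine Finset.sum_congr rfl fun l _ => ?_
    rw [hψ'a]
    congr 1
    funext k
    by_cases hk : k = ε l
    · subst hk
      rw [Equiv.symm_apply_apply, Function.update_self, Function.update_self]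
    · rw [Function.update_of_ne hk, Function.update_of_ne]
      intro h
      exact hk (by rw [← h, Equiv.apply_symm_apply])
  have key : ∀ w : Fin m × Fin 2 → V, ψ' (fun k => T (w k)) = ψ' w := by
    intro w
    refine Submodule.span_induction (p := fun φ _ => φ (fun k => T (w k)) = φ w) ?_ ?_ ?_ ?_ hψ'
    · rintro _ ⟨τ, B, hB, rfl⟩
      rw [mmG_apply, mmG_apply]
      exact Finset.prod_congr rfl fun l _ => hT _ (hB l) _ _
    · rfl
    · intro φ₁ φ₂ _ _ h1 h2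
      rw [_root_.add_apply, _root_.add_apply, h1, h2]
    · intro c φ₁ _ h1
      rw [_root_.smul_apply, _root_.smul_apply, h1]
  have h1 := key (fun l => v (ε l))
  rw [hψ'a, hψ'a] at h1
  simp only [Equiv.apply_symm_apply] at h1
  exact h1

include hinv hne hjj hj0 hω hωρ hωσ hss hγ hγ' hq0 hq hq' hχ h4 hsep hnd hnd' hros in
/-- **Tate forms on the sum are invariant under the linear maps of the first summand which preserve
the Tate forms in two variables.** -/
theorem mixed_inv {m : ℕ} (φ : MultilinearMap Ω (fun _ : Fin m × Fin 2 => V × W) Ω)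
    (hφ : IsTate (pr ρ σ) χ m φ) (T : V →ₗ[Ω] V)
    (hT : ∀ B, IsTate2 ρ χ B → ∀ u v, B (T u) (T v) = B u v) (v : Fin m × Fin 2 → V × W) :
    φ (fun k => (T (v k).1, (v k).2)) = φ v := by
  classical
  have key : ∀ (s : Finset (Fin m × Fin 2)) (x : Fin m × Fin 2 → V) (y : Fin m × Fin 2 → W),
      φ (s.piecewise (fun k => (T (x k), 0)) (fun k => (0, y k))) =
        φ (s.piecewise (fun k => (x k, 0)) (fun k => (0, y k))) := by
    intro s x y
    let ψ : MultilinearMap Ω (fun _ : {k // k ∈ s} => V) Ω :=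
      (φ.domDomRestrict (fun k => k ∈ s) (fun k => ((0 : V), y k.1))).compLinearMap
        (fun _ => LinearMap.inl Ω V W)
    have hψa : ∀ z : {k // k ∈ s} → V, ψ z =
        φ (fun k => if h : k ∈ s then (z ⟨k, h⟩, (0 : W)) else (0, y k)) := fun z => rfl
    have h1 : ∀ (g : Fin m × Fin 2 → V), s.piecewise (fun k => (g k, (0 : W))) (fun k => (0, y k)) =
        fun k => if h : k ∈ s then (g k, (0 : W)) else (0, y k) := by
      intro g
      funext k
      unfold Finset.piecewise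
      split_ifs <;> rfl
    have h2 := inv_form ρ σ χ ω ω' hωρ hωσ e f hinv hne hjj hj0 hω hss hγ hγ' hq0 hq hq' h4 hsep
      hnd hnd' ψ (fun x' y' hxy => ?_) T hT (fun k => x k.1)
    · rw [hψa, hψa] at h2
      rw [h1 (fun k => T (x k)), h1 x]
      exact h2
    · have hX := SS_all ρ σ χ ω ω' hωρ hωσ e f hinv hne hjj hj0 hω hss hγ hγ' hq0 hq hq' hχ h4 hsep
        hnd hnd' hros hxy
      intro z
      have h3 := hX m φ hφ (fun k => if h : k ∈ s then (z ⟨k, h⟩, (0 : W)) else (0, y k))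
      rw [← h3, ← Finset.sum_subset (Finset.subset_univ s), ← Finset.sum_coe_sort s]
      · refine Finset.sum_congr rfl fun l _ => ?_
        rw [hψa]
        congr 1
        funext k
        by_cases hk : k = l.1
        · subst hk
          rw [Function.update_self]
          rw [dif_pos l.2, dif_pos l.2, Function.update_self]
          rfl
        · rw [Function.update_of_ne hk]
          by_cases hks : k ∈ s
          · rw [dif_pos hks, dif_pos hks, Function.update_of_ne]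
            intro h
            exact hk (congrArg Subtype.val h)
          · rw [dif_neg hks, dif_neg hks]
      · intro k _ hks
        refine φ.map_coord_zero k ?_
        rw [Function.update_self, dif_neg hks, ext0_apply]
        simp
  have hsum : ∀ (x : Fin m × Fin 2 → V) (y : Fin m × Fin 2 → W), φ (fun k => (x k, y k)) =
      ∑ s : Finset (Fin m × Fin 2), φ (s.piecewise (fun k => (x k, 0)) (fun k => (0, y k))) := by
    intro x y
    rw [← MultilinearMap.map_add_univ]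
    congr 1
    funext k
    simp
  rw [hsum (fun k => T (v k).1) (fun k => (v k).2)]
  have h1 : φ v = φ (fun k => ((v k).1, (v k).2)) := rfl
  rw [h1, hsum (fun k => (v k).1) (fun k => (v k).2)]
  exact Finset.sum_congr rfl fun s _ => key s _ _

end

end Pool.Agent.Q43.GC
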