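import Pool.Agent.W516.Four2

/-!
# Pairs of representations: the part of the Lie algebra that acts on the first summand
-/

set_option autoImplicit false
set_option linter.unusedSectionVars false

namespace Pool.Agent.Q43.GC

open Module Pool.Agent.H204R3.CM Pool.Agent.H204R3.SP Pool.Agent.H204R3.GP Pool.Agent.W516.FT

noncomputable section

variable {Ω : Type} [Field Ω] [CharZero Ω] {V W : Type} [AddCommGroup V] [Module Ω V]
  [AddCommGroup W] [Module Ω W] {Γ : Type} [Group Γ]

/-- The direct sum of two representations. -/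
def pr (ρ : Representation Ω Γ V) (σ : Representation Ω Γ W) : Representation Ω Γ (V × W) where
  toFun s := (ρ s).prodMap (σ s)
  map_one' := by
    ext v <;> simp
  map_mul' s t := by
    ext v <;> simp

omit [CharZero Ω] in
theorem pr_apply (ρ : Representation Ω Γ V) (σ : Representation Ω Γ W) (s : Γ) (u : V × W) :
    pr ρ σ s u = (ρ s u.1, σ s u.2) := rfl

/-- The extension by zero of an endomorphism of the first summand. -/
def ext0 : Module.End Ω V →ₗ[Ω] Module.End Ω (V × W) where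
  toFun X := X.prodMap 0
  map_add' X Y := by
    ext v <;> simp
  map_smul' c X := by
    ext v <;> simp

omit [CharZero Ω] in
theorem ext0_apply (X : Module.End Ω V) (u : V × W) :
    (ext0 X : Module.End Ω (V × W)) u = (X u.1, 0) := rfl

omit [CharZero Ω] in
theorem ext0_mul (X Y : Module.End Ω V) :
    (ext0 (X * Y) : Module.End Ω (V × W)) = ext0 X * ext0 Y := by
  refine LinearMap.ext fun u => ?_
  rw [Module.End.mul_apply, ext0_apply, ext0_apply, ext0_apply]
  rfl

/-- The direct sum of two bilinear forms. -/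
def omU (ω : V →ₗ[Ω] V →ₗ[Ω] Ω) (ω' : W →ₗ[Ω] W →ₗ[Ω] Ω) :
    (V × W) →ₗ[Ω] (V × W) →ₗ[Ω] Ω :=
  ω.compl₁₂ (LinearMap.fst Ω V W) (LinearMap.fst Ω V W) +
    ω'.compl₁₂ (LinearMap.snd Ω V W) (LinearMap.snd Ω V W)

omit [CharZero Ω] in
theorem omU_apply (ω : V →ₗ[Ω] V →ₗ[Ω] Ω) (ω' : W →ₗ[Ω] W →ₗ[Ω] Ω) (u v : V × W) :
    omU ω ω' u v = ω u.1 v.1 + ω' u.2 v.2 := rfl

variable (ρ : Representation Ω Γ V) (σ : Representation Ω Γ W) (χ : Γ →* Ω)
  (ω : V →ₗ[Ω] V →ₗ[Ω] Ω) (ω' : W →ₗ[Ω] W →ₗ[Ω] Ω)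
  (hωρ : ∀ s u v, ω (ρ s u) (ρ s v) = χ s * ω u v)
  (hωσ : ∀ s u v, ω' (σ s u) (σ s v) = χ s * ω' u v)

include hωρ hωσ in
theorem omU_sim (s : Γ) (u v : V × W) :
    omU ω ω' (pr ρ σ s u) (pr ρ σ s v) = χ s * omU ω ω' u v := by
  rw [omU_apply, omU_apply, pr_apply, pr_apply, hωρ, hωσ, mul_add]

/-- The endomorphisms of the first summand which normalize the Lie algebra of the sum. -/
def gg : Submodule Ω (Module.End Ω V) :=
  (nrm (omU ω ω') (pr ρ σ) χ).comap (ext0 (W := W))

theorem mem_gg {X : Module.End Ω V} :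
    X ∈ gg ρ σ χ ω ω' ↔ (ext0 X : Module.End Ω (V × W)) ∈ nrm (omU ω ω') (pr ρ σ) χ := Iff.rfl

theorem gg_bracket : ∀ X ∈ gg ρ σ χ ω ω', ∀ Y ∈ gg ρ σ χ ω ω', X * Y - Y * X ∈ gg ρ σ χ ω ω' := by
  intro X hX Y hY
  rw [mem_gg, map_sub, ext0_mul, ext0_mul]
  exact nrm_bracket _ _ _ _ hX _ hY

theorem gg_sp : ∀ X ∈ gg ρ σ χ ω ω', ∀ u w, ω (X u) w + ω u (X w) = 0 := by
  intro X hX u w
  have h := nrm_sp _ _ _ _ hX ((u, 0) : V × W) (w, 0)
  rw [ext0_apply, ext0_apply, omU_apply, omU_apply] at h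
  simpa using h

theorem gg_conj (hωρ : ∀ s u v, ω (ρ s u) (ρ s v) = χ s * ω u v)
    (hωσ : ∀ s u v, ω' (σ s u) (σ s v) = χ s * ω' u v) (s : Γ) (X : Module.End Ω V)
    (hX : X ∈ gg ρ σ χ ω ω') : ρ s * X * ρ s⁻¹ ∈ gg ρ σ χ ω ω' := by
  rw [mem_gg]
  have h := nrm_conj (omU ω ω') (pr ρ σ) χ (omU_sim ρ σ χ ω ω' hωρ hωσ) s _ hX
  have h1 : pr ρ σ s * ext0 X * pr ρ σ s⁻¹ = (ext0 (ρ s * X * ρ s⁻¹) : Module.End Ω (V × W)) := by
    refine LinearMap.ext fun u => ?_
    rw [Module.End.mul_apply, Module.End.mul_apply, pr_apply, ext0_apply, pr_apply, ext0_apply]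
    simp
  rw [← h1]
  exact h

theorem gg_comm (Δ : Subgroup Γ) (hΔ : Δ.FiniteIndex) (P : Module.End Ω V)
    (hP : ∀ s ∈ Δ, ∀ v, P (ρ s v) = ρ s (P v)) :
    ∀ X ∈ gg ρ σ χ ω ω', ∀ v, X (P v) = P (X v) := by
  intro X hX v
  have h := nrm_comm (omU ω ω') (pr ρ σ) χ Δ hΔ (ext0 P) (by
    intro s hs u
    rw [ext0_apply, pr_apply, pr_apply, ext0_apply, hP s hs]
    simp) _ hX ((v, 0) : V × W)
  rw [ext0_apply, ext0_apply, ext0_apply, ext0_apply] at h
  exact congrArg Prod.fst h

variable {R R' : Type} [Fintype R] [DecidableEq R] [Fintype R'] [DecidableEq R']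
  (e : Basis R Ω V) (f : Basis R' Ω W) {inv : R → R} {jj : R → Ω}
  (hinv : ∀ x, inv (inv x) = x) (hne : ∀ x, inv x ≠ x)
  (hjj : ∀ x, jj (inv x) = -jj x) (hj0 : ∀ x, jj x ≠ 0)
  (hω : ∀ x y, ω (e x) (e y) = JJ inv jj x y)
  (hss : HasProj ρ)
  {γ : Γ} {a : R → Ω} {b : R' → Ω} (hγ : ∀ x, ρ γ (e x) = a x • e x)
  (hγ' : ∀ x, σ γ (f x) = b x • f x)
  {q : Ω} (hq0 : q ≠ 0) (hq : ∀ x, a x * a (inv x) = q) (hq' : ∀ y, ∃ y', b y * b y' = q)
  (hχ : χ γ = q) (h4 : Four inv a q)
  (hsep : ∀ M : ℕ, 0 < M → ∀ x z : R, x ≠ z → ∀ x' z' : R', (a z * b x') ^ M ≠ (b z' * a x) ^ M)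

/-- The diagonal elements, in another way. -/
theorem dg_repr' {Ω V R : Type} [Field Ω] [CharZero Ω] [AddCommGroup V] [Module Ω V] [Fintype R]
    [DecidableEq R] (e : Basis R Ω V) (x : R → Ω) (v : V) (z : R) :
    e.repr (dg e x v) z = x z * e.repr v z := by
  conv_lhs => rw [← e.sum_repr v]
  rw [map_sum, map_sum, Finsupp.finsetSum_apply, Finset.sum_eq_single z]
  · rw [map_smul, dg_basis, map_smul, map_smul, e.repr_self, Finsupp.smul_apply,
      Finsupp.smul_apply, Finsupp.single_eq_same, smul_eq_mul, smul_eq_mul]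
    ring
  · intro a _ hab
    rw [map_smul, dg_basis, map_smul, map_smul, e.repr_self, Finsupp.smul_apply,
      Finsupp.smul_apply, Finsupp.single_eq_of_ne hab.symm, smul_zero, smul_zero]
  · intro h
    exact absurd (Finset.mem_univ _) h

include hγ hγ' in
theorem pr_eig (x : R ⊕ R') :
    pr ρ σ γ (e.prod f x) = (Sum.elim a b x : Ω) • e.prod f x := by
  rcases x with x | x
  · rw [Basis.prod_apply, Sum.elim_inl, Sum.elim_inl, pr_apply]
    simp [hγ]
  · rw [Basis.prod_apply, Sum.elim_inr, Sum.elim_inr, pr_apply]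
    simp [hγ']

theorem ext0_dg (x : R → Ω) :
    (ext0 (dg e x) : Module.End Ω (V × W)) = dg (e.prod f) (Sum.elim x 0) := by
  refine (e.prod f).ext fun y => ?_
  rw [dg_basis]
  rcases y with y | y
  · rw [Basis.prod_apply, Sum.elim_inl, Sum.elim_inl, ext0_apply]
    simp [dg_basis]
  · rw [Basis.prod_apply, Sum.elim_inr, Sum.elim_inr, ext0_apply]
    simp

/-- Multiplication of the matrix coefficients by a function of the ratio of the eigenvalues; only
the coefficients which can be different from zero matter. -/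
theorem ratio_mem' {Ω V Γ R : Type} [Field Ω] [CharZero Ω] [AddCommGroup V] [Module Ω V] [Group Γ]
    [Fintype R] [DecidableEq R] (e : Basis R Ω V) (ρ : Representation Ω Γ V) (χ : Γ →* Ω) {γ : Γ}
    {a : R → Ω} (hγ : ∀ x, ρ γ (e x) = a x • e x) (good : R → R → Prop) (δ : R → R → Ω)
    (hδ : ∀ x z x' z', good x z → good x' z' → a z / a x = a z' / a x' → δ x z = δ x' z')
    (X : Module.End Ω V) (hX : X ∈ lieT ρ χ)
    (hX0 : ∀ x z, ¬ good x z → e.repr (X (e x)) z = 0) :
    ∃ Y ∈ lieT ρ χ, ∀ x z, e.repr (Y (e x)) z = δ x z * e.repr (X (e x)) z := by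
  classical
  let r : {p : R × R // good p.1 p.2} → Ω := fun p => a p.1.2 / a p.1.1
  let F : Ω → Ω := Function.extend r (fun p => δ p.1.1 p.1.2) 0
  have hf : ∀ x z, good x z → F (a z / a x) = δ x z := by
    intro x z h
    have h1 : Function.FactorsThrough (fun p : {p : R × R // good p.1 p.2} => δ p.1.1 p.1.2) r := by
      intro p p' h
      exact hδ _ _ _ _ p.2 p'.2 h
    exact h1.extend_apply 0 ⟨(x, z), h⟩
  obtain ⟨Y, hY, hY'⟩ := poly_mem e ρ χ hγ X hX
    (Lagrange.interpolate (Finset.univ.image (fun p : R × R => a p.2 / a p.1)) id F)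
  refine ⟨Y, hY, fun x z => ?_⟩
  rw [hY']
  by_cases hg : good x z
  · congr 1
    have h1 : a z / a x ∈ Finset.univ.image (fun p : R × R => a p.2 / a p.1) :=
      Finset.mem_image.2 ⟨(x, z), Finset.mem_univ _, rfl⟩
    have h2 := Lagrange.eval_interpolate_at_node F
      (s := Finset.univ.image (fun p : R × R => a p.2 / a p.1)) (v := id)
      Function.injective_id.injOn h1
    rw [id] at h2
    rw [h2, hf x z hg]
  · rw [hX0 x z hg, mul_zero, mul_zero]

include hq hq' hsep hne hq0 in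
/-- There is no common eigenvalue. -/
theorem sep0 (M : ℕ) (hM : 0 < M) (x : R) (z : R') : a x ^ M ≠ b z ^ M := by
  intro h
  obtain ⟨z', hz'⟩ := hq' z
  have h1 : a (inv x) ^ M = b z' ^ M := by
    have h2 : a x ^ M ≠ 0 := by
      intro h3
      have h4 : (a x * a (inv x)) ^ M = 0 := by rw [mul_pow, h3, zero_mul]
      rw [hq] at h4
      exact pow_ne_zero M hq0 h4
    apply mul_left_cancel₀ h2
    rw [← mul_pow, hq, h, ← mul_pow, hz']
  refine hsep M hM (inv x) x (hne x) z' z ?_
  rw [mul_pow, mul_pow, h, h1]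

include hωρ hωσ in
/-- The elements of the Lie algebra preserve both summands. -/
theorem lieT_block (hnd : ∀ u, (∀ w, ω u w = 0) → u = 0)
    (hnd' : ∀ u, (∀ w, ω' u w = 0) → u = 0) {X : Module.End Ω (V × W)}
    (hX : X ∈ lieT (pr ρ σ) χ) :
    (∀ v : V, (X (v, 0)).2 = 0) ∧ ∀ w : W, (X (0, w)).1 = 0 := by
  have h1 := lieT_le_nrm (omU ω ω') (pr ρ σ) χ (omU_sim ρ σ χ ω ω' hωρ hωσ) (by
    intro u hu
    refine Prod.ext (hnd _ fun w => ?_) (hnd' _ fun w => ?_)
    · have h := hu (w, 0)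
      rw [omU_apply] at h
      simpa using h
    · have h := hu (0, w)
      rw [omU_apply] at h
      simpa using h) hX
  have h2 := h1.2.2 (ext0 1) ⟨⊤, inferInstance, fun s _ u => by
    rw [ext0_apply, pr_apply, pr_apply, ext0_apply]
    simp⟩
  constructor
  · intro v
    have h3 := h2 (v, 0)
    rw [ext0_apply, ext0_apply] at h3
    exact congrArg Prod.snd h3
  · intro w
    have h3 := h2 (0, w)
    rw [ext0_apply, ext0_apply] at h3
    have h4 : (X ((1 : Module.End Ω V) ((0, w) : V × W).1, 0)) = 0 := by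
      have h5 : (((1 : Module.End Ω V) ((0, w) : V × W).1, (0 : W)) : V × W) = 0 := rfl
      rw [h5, map_zero]
    rw [h4] at h3
    exact (congrArg Prod.fst h3).symm

/-- The pairs of indices on the same side. -/
def same : R ⊕ R' → R ⊕ R' → Prop
  | Sum.inl _, Sum.inl _ => True
  | Sum.inr _, Sum.inr _ => True
  | _, _ => False

include hinv hne hjj hω hq0 hq hq' h4 hγ hγ' hωρ hωσ hsep in
/-- The diagonal torus of the first summand is in the normalizer. -/
theorem DD_gg (hnd : ∀ u, (∀ w, ω u w = 0) → u = 0)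
    (hnd' : ∀ u, (∀ w, ω' u w = 0) → u = 0) (y : R) : DD e inv y ∈ gg ρ σ χ ω ω' := by
  have hE := pr_eig ρ σ e f hγ hγ'
  have ha : ∀ x, a x ≠ 0 := eig_ne_zero e ρ hγ
  have hb : ∀ x, b x ≠ 0 := eig_ne_zero f σ hγ'
  rw [mem_gg, DD_eq_dg, ext0_dg e f]
  refine ⟨fun u w => ?_, fun X hX => ?_, fun P hP v => ?_⟩
  · rw [← ext0_dg e f, ← DD_eq_dg, ext0_apply, ext0_apply, omU_apply, omU_apply]
    have h := DD_sp e hinv hjj ω hω y u.1 w.1
    simpa using h
  · have hblk := lieT_block ρ σ χ ω ω' hωρ hωσ hnd hnd' hX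
    obtain ⟨Y, hY, hY'⟩ := ratio_mem' (e.prod f) (pr ρ σ) χ hE same
      (fun x z => (Sum.elim (fun t => (dd inv y t : Ω)) 0 z : Ω) -
        Sum.elim (fun t => (dd inv y t : Ω)) 0 x) (by
      rintro (x | x) (z | z) (x' | x') (z' | z') hg hg' h
      · exact four_ratio e hinv hne ρ hγ hq0 hq h4 y x z x' z' h
      · exact hg'.elim
      · exact hg'.elim
      · have h1 : x = z := by
          by_contra hxz
          refine hsep 1 one_pos x z hxz x' z' ?_
          rw [pow_one, pow_one]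
          have h2 : a z / a x = b z' / b x' := h
          rwa [div_eq_div_iff (ha x) (hb x')] at h2
        simp [h1]
      · exact hg.elim
      · exact hg.elim
      · exact hg.elim
      · exact hg.elim
      · exact hg.elim
      · exact hg.elim
      · exact hg.elim
      · exact hg.elim
      · have h1 : x' = z' := by
          by_contra hxz
          refine hsep 1 one_pos x' z' hxz x z ?_
          rw [pow_one, pow_one]
          have h2 : b z / b x = a z' / a x' := h
          rw [div_eq_div_iff (hb x) (ha x')] at h2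
          exact h2.symm
        simp [h1]
      · exact hg'.elim
      · exact hg'.elim
      · simp) X hX (by
      rintro (x | x) (z | z) hg
      · exact absurd trivial hg
      · rw [Basis.prod_apply, Sum.elim_inl, Basis.prod_repr_inr]
        have h1 := hblk.1 (e x)
        change f.repr (X (e x, 0)).2 z = 0
        rw [h1, map_zero, Finsupp.zero_apply]
      · rw [Basis.prod_apply, Sum.elim_inr, Basis.prod_repr_inl]
        have h1 := hblk.2 (f x)
        change e.repr (X (0, f x)).1 z = 0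
        rw [h1, map_zero, Finsupp.zero_apply]
      · exact absurd trivial hg)
    have h1 : dg (e.prod f) (Sum.elim (fun t => (dd inv y t : Ω)) 0) * X -
        X * dg (e.prod f) (Sum.elim (fun t => (dd inv y t : Ω)) 0) = Y := by
      refine (e.prod f).ext fun x => (e.prod f).repr.injective (Finsupp.ext fun z => ?_)
      rw [hY', LinearMap.sub_apply, Module.End.mul_apply, Module.End.mul_apply, map_sub,
        Finsupp.sub_apply, dg_repr', dg_basis, map_smul, map_smul, Finsupp.smul_apply, smul_eq_mul]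
      ring
    rw [h1]
    exact hY
  · obtain ⟨Δ, hΔ, hP⟩ := hP
    obtain ⟨M, hM, -, hMΔ⟩ := Subgroup.exists_pow_mem_of_index_ne_zero hΔ.index_ne_zero γ
    have hc : ∀ x z, (e.prod f).repr (P (e.prod f x)) z ≠ 0 →
        (Sum.elim a b x : Ω) ^ M = Sum.elim a b z ^ M := by
      intro x z h
      have h1 := congrArg (fun v => (e.prod f).repr v z) (hP _ hMΔ (e.prod f x))
      simp only [pow_eig (e.prod f) (pr ρ σ) hE, map_smul, Finsupp.smul_apply, smul_eq_mul,
        repr_pow_eig (e.prod f) (pr ρ σ) hE] at h1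
      exact mul_right_cancel₀ h h1
    have h1 : (dg (e.prod f) (Sum.elim (fun t => (dd inv y t : Ω)) 0)).comp P =
        P.comp (dg (e.prod f) (Sum.elim (fun t => (dd inv y t : Ω)) 0)) := by
      refine (e.prod f).ext fun x => (e.prod f).repr.injective (Finsupp.ext fun z => ?_)
      rw [LinearMap.comp_apply, LinearMap.comp_apply, dg_repr', dg_basis, map_smul, map_smul,
        Finsupp.smul_apply, smul_eq_mul]
      by_cases h : (e.prod f).repr (P (e.prod f x)) z = 0
      · rw [h, mul_zero, mul_zero]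
      · have h2 := hc x z h
        congr 1
        rcases x with x | x <;> rcases z with z | z
        · rw [four_dist hinv hne hq h4 M hM x z h2]
        · exact absurd h2 (sep0 hne hq0 hq hq' hsep M hM x z)
        · exact absurd h2.symm (sep0 hne hq0 hq hq' hsep M hM z x)
        · rfl
    exact congrArg (fun T : Module.End Ω (V × W) => T v) h1

/-- The diagonal element attached to a logarithm kills all Tate forms. -/
theorem log_mem' {Ω V Γ R : Type} [Field Ω] [CharZero Ω] [AddCommGroup V] [Module Ω V] [Group Γ]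
    [Fintype R] [DecidableEq R] (e : Basis R Ω V) (ρ : Representation Ω Γ V) (χ : Γ →* Ω) {γ : Γ}
    {a : R → Ω} (hγ : ∀ x, ρ γ (e x) = a x • e x) {q : Ω} (hq0 : q ≠ 0) (hχ : χ γ = q)
    {F : Ω → Ω} (hF : ∀ x y, x ≠ 0 → y ≠ 0 → F (x * y) = F x + F y) :
    dg e (fun x => F (a x) - F q / 2) ∈ lieT ρ χ := by
  rintro m φ ⟨Δ, hΔ, hφ⟩
  rw [kills_dg]
  intro I hI
  obtain ⟨M, hM, -, hMΔ⟩ := Subgroup.exists_pow_mem_of_index_ne_zero hΔ.index_ne_zero γ
  have h1 := hφ (γ ^ M) hMΔ (fun l => e (I l))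
  simp only [pow_eig e ρ hγ] at h1
  rw [MultilinearMap.map_smul_univ, smul_eq_mul, map_pow, hχ] at h1
  have h3 := mul_right_cancel₀ hI h1
  have ha := eig_ne_zero e ρ hγ
  have h4 := congrArg F h3
  rw [log_prod hF _ _ (fun i _ => pow_ne_zero _ (ha _)), log_pow hF (pow_ne_zero _ hq0),
    log_pow hF hq0] at h4
  have h5 : ∑ i, F (a (I i) ^ M) = M * ∑ i, F (a (I i)) := by
    rw [Finset.mul_sum]
    exact Finset.sum_congr rfl fun i _ => log_pow hF (ha _) M
  have hM0 : (M : Ω) ≠ 0 := Nat.cast_ne_zero.2 hM.ne'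
  have h6 : ∑ i, F (a (I i)) = m * F q := by
    apply mul_left_cancel₀ hM0
    rw [← h5, h4]
    ring
  rw [Finset.sum_sub_distrib, h6, Finset.sum_const, Finset.card_univ, Fintype.card_prod,
    Fintype.card_fin, Fintype.card_fin, nsmul_eq_mul]
  push_cast
  ring

include hω hinv hne hjj hj0 hq0 hq hχ h4 hγ hγ' in
/-- The root vectors of the normalizer are in the Lie algebra. -/
theorem SS_pair {x y : R} (hxy : y ≠ inv x) (h : SS ω (e x) (e y) ∈ gg ρ σ χ ω ω') :
    (ext0 (SS ω (e x) (e y)) : Module.End Ω (V × W)) ∈ lieT (pr ρ σ) χ := by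
  have ha := eig_ne_zero e ρ hγ
  have ht0 : a x * a y / q ≠ 0 := div_ne_zero (mul_ne_zero (ha x) (ha y)) hq0
  obtain ⟨F, hF, hFt⟩ := exists_log ht0 (by
    intro M hM h1
    apply hxy
    rw [div_pow, div_eq_one_iff_eq (pow_ne_zero _ hq0)] at h1
    apply four_dist hinv hne hq h4 M hM
    have h2 : a x ^ M ≠ 0 := pow_ne_zero _ (ha x)
    apply mul_left_cancel₀ h2
    rw [← mul_pow, ← mul_pow, h1, hq])
  have hlog := log_mem' (e.prod f) (pr ρ σ) χ (pr_eig ρ σ e f hγ hγ') hq0 hχ hF
  have h1 := h.2.1 _ hlog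
  have h2 : (ext0 (SS ω (e x) (e y)) : Module.End Ω (V × W)) *
      dg (e.prod f) (fun z => F (Sum.elim a b z) - F q / 2) -
      dg (e.prod f) (fun z => F (Sum.elim a b z) - F q / 2) * ext0 (SS ω (e x) (e y)) =
      ext0 (SS ω (e x) (e y) * dg e (fun z => F (a z) - F q / 2) -
        dg e (fun z => F (a z) - F q / 2) * SS ω (e x) (e y)) := by
    have h3 : ∀ v : V, dg (e.prod f) (fun z => F (Sum.elim a b z) - F q / 2) (v, (0 : W)) =
        (dg e (fun z => F (a z) - F q / 2) v, 0) := by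
      intro v
      have h4 : (dg (e.prod f) (fun z => F (Sum.elim a b z) - F q / 2)).comp
          (LinearMap.inl Ω V W) = (LinearMap.inl Ω V W).comp (dg e (fun z => F (a z) - F q / 2)) := by
        refine e.ext fun z => ?_
        rw [LinearMap.comp_apply, LinearMap.comp_apply, dg_basis]
        have h5 := dg_basis (e.prod f) (fun z => F (Sum.elim a b z) - F q / 2) (Sum.inl z)
        rw [Basis.prod_apply, Sum.elim_inl, Sum.elim_inl] at h5
        rw [map_smul]
        exact h5
      exact congrArg (fun T : V →ₗ[Ω] V × W => T v) h4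
    have h3' : ∀ u : V × W, (dg (e.prod f) (fun z => F (Sum.elim a b z) - F q / 2) u).1 =
        dg e (fun z => F (a z) - F q / 2) u.1 := by
      intro u
      have h4 : (LinearMap.fst Ω V W).comp (dg (e.prod f) (fun z => F (Sum.elim a b z) - F q / 2)) =
          (dg e (fun z => F (a z) - F q / 2)).comp (LinearMap.fst Ω V W) := by
        refine (e.prod f).ext fun z => ?_
        rw [LinearMap.comp_apply, LinearMap.comp_apply, dg_basis]
        rcases z with z | z
        · rw [Basis.prod_apply]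
          simp [dg_basis]
        · rw [Basis.prod_apply]
          simp
      exact congrArg (fun T : V × W →ₗ[Ω] V => T u) h4
    refine LinearMap.ext fun u => ?_
    rw [LinearMap.sub_apply, Module.End.mul_apply, Module.End.mul_apply, ext0_apply, ext0_apply,
      ext0_apply, h3, h3', LinearMap.sub_apply, Module.End.mul_apply, Module.End.mul_apply]
    simp
  rw [h2, SS_dg e hinv ω hω _ (by
    intro z
    have h3 := hF _ _ (ha z) (ha (inv z))
    rw [hq] at h3
    linear_combination -h3), map_smul] at h1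
  have h3 : F (a x * a y / q) = F (a x) + F (a y) - F q := by
    have h4 := hF (a x * a y / q) q ht0 hq0
    rw [div_mul_cancel₀ _ hq0, hF _ _ (ha x) (ha y)] at h4
    linear_combination -h4
  refine (Submodule.smul_mem_iff _ ?_).1 h1
  intro h5
  apply hFt
  rw [h3]
  linear_combination -h5

end

end Pool.Agent.Q43.GC
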