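import Pool.Agent.Q43.GC.Main

/-!
# Tate forms on the product of a power and another variety
-/

set_option autoImplicit false
set_option linter.unusedSectionVars false

namespace Pool.Agent.Q43.GC

open Module Pool.Agent.H204R3.SP Pool.Agent.H204R3.GP Pool.Agent.W516.FT Pool.Agent.TH776.FM
  Pool.Agent.TH776.FL

noncomputable section

section defs

variable {k : Type} [Field k] {V W : Type} [AddCommGroup V] [Module k V]
  [AddCommGroup W] [Module k W]

/-- The map of the sum of `r` copies of `V` and `W` which is `T` on the copies of `V` and `S` on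
`W`. -/
def diagMap (r : ℕ) (T : V →ₗ[k] V) (S : W →ₗ[k] W) :
    ((Fin r → V) × W) →ₗ[k] ((Fin r → V) × W) :=
  LinearMap.prodMap (LinearMap.pi fun j => T ∘ₗ LinearMap.proj j) S

theorem diagMap_apply (r : ℕ) (T : V →ₗ[k] V) (S : W →ₗ[k] W) (v : (Fin r → V) × W) :
    diagMap r T S v = (fun j => T (v.1 j), S v.2) := rfl

variable (k) in
/-- The inclusion of `V × W`: the first component goes to the copy `j` for `c = some j`, and the
second component to `W` for `c = none`. -/
def inj {r : ℕ} : Option (Fin r) → ((V × W) →ₗ[k] ((Fin r → V) × W))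
  | some j => LinearMap.prod (LinearMap.single k (fun _ : Fin r => V) j ∘ₗ LinearMap.fst k V W) 0
  | none => LinearMap.prod 0 (LinearMap.snd k V W)

theorem inj_some {r : ℕ} (j : Fin r) (u : V × W) :
    (inj k (some j) u : (Fin r → V) × W) = (Pi.single j u.1, 0) := rfl

theorem inj_none {r : ℕ} (u : V × W) : (inj k none u : (Fin r → V) × W) = (0, u.2) := rfl

/-- The components. -/
def part {r : ℕ} : Option (Fin r) → ((Fin r → V) × W) → V × W
  | some j, v => (v.1 j, v.2)
  | none, v => (0, v.2)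

theorem sum_part {r : ℕ} (v : (Fin r → V) × W) :
    ∑ c : Option (Fin r), inj k c (part c v) = v := by
  rw [Fintype.sum_option]
  have h1 : ∀ j : Fin r, inj k (some j) (part (some j) v) =
      ((Pi.single j (v.1 j), 0) : (Fin r → V) × W) := fun j => rfl
  have h2 : inj k none (part none v) = ((0, v.2) : (Fin r → V) × W) := rfl
  rw [h2, Finset.sum_congr rfl fun j _ => h1 j]
  refine Prod.ext ?_ ?_
  · rw [Prod.fst_add, Prod.fst_sum, zero_add]
    exact Finset.univ_sum_single v.1
  · rw [Prod.snd_add, Prod.snd_sum]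
    simp

theorem diagMap_inj {r : ℕ} (T : V →ₗ[k] V) (S : W →ₗ[k] W) (c : Option (Fin r)) (u : V × W) :
    diagMap r T S (inj k c u) = inj k c (T u.1, S u.2) := by
  rcases c with _ | j
  · rw [inj_none, inj_none, diagMap_apply]
    refine Prod.ext (funext fun j => ?_) rfl
    simp
  · rw [inj_some, inj_some, diagMap_apply]
    refine Prod.ext (funext fun i => ?_) (by simp)
    by_cases h : i = j
    · subst h
      simp
    · simp [Pi.single_eq_of_ne h]

theorem inj_part_diag {r : ℕ} (T : V →ₗ[k] V) (c : Option (Fin r)) (v : (Fin r → V) × W) :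
    inj k c (part c (diagMap r T LinearMap.id v)) =
      inj k c ((T (part c v).1, (part c v).2)) := by
  rcases c with _ | j
  · rfl
  · rfl

end defs

variable {k : Type} [Field k] [CharZero k] {V W : Type} [AddCommGroup V] [Module k V]
  [AddCommGroup W] [Module k W] {Γ : Type} [Group Γ]

/-- The representation on the sum of `r` copies of `V` and `W`. -/
def sumRep (ρ : Representation k Γ V) (σ : Representation k Γ W) (r : ℕ) :
    Representation k Γ ((Fin r → V) × W) where
  toFun s := diagMap r (ρ s) (σ s)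
  map_one' := by
    refine LinearMap.ext fun v => ?_
    rw [diagMap_apply, map_one, map_one]
    rfl
  map_mul' s t := by
    refine LinearMap.ext fun v => ?_
    rw [diagMap_apply, map_mul, map_mul]
    rfl

theorem sumRep_apply (ρ : Representation k Γ V) (σ : Representation k Γ W) (r : ℕ) (s : Γ)
    (v : (Fin r → V) × W) : sumRep ρ σ r s v = (fun j => ρ s (v.1 j), σ s v.2) := rfl

theorem sumRep_inj (ρ : Representation k Γ V) (σ : Representation k Γ W) {r : ℕ} (s : Γ)
    (c : Option (Fin r)) (u : V × W) : sumRep ρ σ r s (inj k c u) = inj k c (pr ρ σ s u) :=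
  diagMap_inj (ρ s) (σ s) c u

/-- A multilinear form on the sum, by the components. -/
theorem form_parts {r m : ℕ} (φ : MultilinearMap k (fun _ : Fin m × Fin 2 => (Fin r → V) × W) k)
    (v : Fin m × Fin 2 → (Fin r → V) × W) :
    φ v = ∑ c : (Fin m × Fin 2) → Option (Fin r), φ (fun l => inj k (c l) (part (c l) (v l))) := by
  classical
  have h := φ.map_sum (fun (l : Fin m × Fin 2) (c : Option (Fin r)) =>
    inj k c (part c (v l)))
  rw [← h]
  congr 1
  funext l
  exact (sum_part (v l)).symm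

variable [FiniteDimensional k V] [FiniteDimensional k W]

/-- **Tate forms on `B^r × C`.** -/
theorem power_main (ρ : Representation k Γ V) (σ : Representation k Γ W) (χ : Γ →* k)
    (ω : V →ₗ[k] V →ₗ[k] k) (ω' : W →ₗ[k] W →ₗ[k] k) (h : IsTateModule ρ χ ω)
    (h' : IsTateModule σ χ ω') (hR : RosatiTrivial ρ ω)
    (γ : Γ) {q : ℕ} (hχ : χ γ = q) {P Q : Polynomial ℚ} (hP : P.Separable)
    (hγ : (ρ γ).charpoly = P.map (algebraMap ℚ k)) (hQ : Q.Separable)
    (hγ' : Polynomial.aeval (σ γ) (Q.map (algebraMap ℚ k)) = 0)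
    (h4 : OnlyTrivialRelationsOfLengthFour P q)
    (hsep : ∀ M : ℕ, 0 < M → ∀ x ∈ P.rootSet ℂ, ∀ z ∈ P.rootSet ℂ, x ≠ z → ∀ x' ∈ Q.rootSet ℂ,
      ∀ z' ∈ Q.rootSet ℂ, (z * x') ^ M ≠ (z' * x) ^ M)
    {r m : ℕ} (φ : MultilinearMap k (fun _ : Fin m × Fin 2 => (Fin r → V) × W) k)
    (hφ : IsTate (sumRep ρ σ r) χ m φ) (T : V →ₗ[k] V) (hT : ∀ u v, ω (T u) (T v) = ω u v)
    (hTP : ∀ P : Module.End k V, (∃ Δ : Subgroup Γ, Δ.FiniteIndex ∧ ∀ s ∈ Δ, ∀ v,
      P (ρ s v) = ρ s (P v)) → ∀ v, P (T v) = T (P v)) (v : Fin m × Fin 2 → (Fin r → V) × W) :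
    φ (fun l => diagMap r T LinearMap.id (v l)) = φ v := by
  rw [form_parts φ v, form_parts φ (fun l => diagMap r T LinearMap.id (v l))]
  refine Finset.sum_congr rfl fun c _ => ?_
  have h1 : ∀ l, inj k (c l) (part (c l) (diagMap r T LinearMap.id (v l))) =
      inj k (c l) ((T (part (c l) (v l)).1, (part (c l) (v l)).2)) := fun l => inj_part_diag T _ _
  simp only [h1]
  set ψ : MultilinearMap k (fun _ : Fin m × Fin 2 => V × W) k :=
    φ.compLinearMap (fun l => inj k (c l)) with hψ
  have h2 : IsTate (pr ρ σ) χ m ψ := by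
    obtain ⟨Δ, hΔ, hs⟩ := hφ
    refine ⟨Δ, hΔ, fun s hs' v => ?_⟩
    rw [hψ, MultilinearMap.compLinearMap_apply, MultilinearMap.compLinearMap_apply,
      ← hs s hs' (fun l => inj k (c l) (v l))]
    congr 1
    funext l
    exact (sumRep_inj ρ σ s (c l) (v l)).symm
  have h3 := mixed_main ρ σ χ ω ω' h h' hR γ hχ hP hγ hQ hγ' h4 hsep ψ h2 T hT hTP
    (fun l => part (c l) (v l))
  rw [hψ, MultilinearMap.compLinearMap_apply, MultilinearMap.compLinearMap_apply] at h3
  exact h3

end

end Pool.Agent.Q43.GC
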